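import Mathlib

/-!
# Uniform approximation of point evaluations

If `h i` is a uniformly bounded family of holomorphic functions on a preconnected open set `R`,
then each finite combination of evaluations at points of `R` is approximated, uniformly in `i`, by
finite combinations of evaluations at points of a set `S` accumulating at a point of `R`.
-/

namespace Pool.Agent.Helper99.RT

open Metric Set Filter Topology Asymptotics

theorem taylor_two {h : ℂ → ℂ} {a : ℂ} {r : ℝ} (hr : 0 < r)
    (hd : DifferentiableOn ℂ h (ball a r)) (hb : ∀ z ∈ ball a r, ‖h z‖ ≤ 1) {z : ℂ}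
    (hz : z ∈ ball a r) : ‖h z - h a - (z - a) * deriv h a‖ ≤ 4 * (dist z a / r) ^ 2 := by
  have ha : a ∈ ball a r := mem_ball_self hr
  have hder : ‖deriv h a‖ ≤ 2 / r := by
    apply Complex.norm_deriv_le_div_of_mapsTo_ball hd _ hr
    intro w hw
    rw [mem_closedBall, dist_eq_norm]
    calc ‖h w - h a‖ ≤ ‖h w‖ + ‖h a‖ := norm_sub_le _ _
      _ ≤ 2 := by linarith [hb w hw, hb a ha]
  set f : ℂ → ℂ := fun w => h w - (w - a) * deriv h a with hf
  have hfd : DifferentiableOn ℂ f (ball a r) := by
    apply hd.sub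
    fun_prop
  have hfa : f a = h a := by simp [hf]
  have hmaps : MapsTo f (ball a r) (closedBall (f a) 4) := by
    intro w hw
    rw [mem_closedBall, dist_eq_norm, hfa]
    have h1 : ‖w - a‖ < r := by rwa [mem_ball, dist_eq_norm] at hw
    calc ‖h w - (w - a) * deriv h a - h a‖ = ‖(h w - h a) - (w - a) * deriv h a‖ := by ring_nf
      _ ≤ ‖h w - h a‖ + ‖(w - a) * deriv h a‖ := norm_sub_le _ _
      _ ≤ (‖h w‖ + ‖h a‖) + ‖w - a‖ * ‖deriv h a‖ := by
          rw [norm_mul]
          gcongr
          exact norm_sub_le _ _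
      _ ≤ (1 + 1) + r * (2 / r) := by
          gcongr
          · exact hb w hw
          · exact hb a ha
      _ = 4 := by field_simp; norm_num
  have hlo : (fun w => f w - f a) =o[𝓝 a] (fun w => ‖w - a‖ ^ 1) := by
    have h1 : HasDerivAt h (deriv h a) a :=
      (hd.differentiableAt (ball_mem_nhds a hr)).hasDerivAt
    have h2 := h1.isLittleO
    simp only [pow_one]
    refine (h2.norm_right).congr_left ?_
    intro w
    simp only [hf, sub_self, zero_mul, sub_zero, smul_eq_mul]
    ring
  have := Complex.dist_le_mul_div_pow_of_mapsTo_ball_of_isLittleO hfd hmaps hlo hz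
  rw [dist_eq_norm, hfa] at this
  calc ‖h z - h a - (z - a) * deriv h a‖ = ‖f z - h a‖ := by simp only [hf]; ring_nf
    _ ≤ _ := this

variable {I : Type} [TopologicalSpace I] [DiscreteTopology I]

open Classical in
/-- the family as a function with values in bounded functions -/
noncomputable def fam (R : Set ℂ) (h : I → ℂ → ℂ) (hb : ∀ i, ∀ z ∈ R, ‖h i z‖ ≤ 1) (z : ℂ) :
    BoundedContinuousFunction I ℂ :=
  BoundedContinuousFunction.ofNormedAddCommGroupDiscrete (fun i => if z ∈ R then h i z else 0) 1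
    (by
      intro i
      split_ifs with hz
      · exact hb i z hz
      · simp)

theorem fam_apply {R : Set ℂ} {h : I → ℂ → ℂ} {hb : ∀ i, ∀ z ∈ R, ‖h i z‖ ≤ 1} {z : ℂ}
    (hz : z ∈ R) (i : I) : fam R h hb z i = h i z := if_pos hz

theorem fam_differentiableOn {R : Set ℂ} (hR : IsOpen R) {h : I → ℂ → ℂ}
    (hd : ∀ i, DifferentiableOn ℂ (h i) R) (hb : ∀ i, ∀ z ∈ R, ‖h i z‖ ≤ 1) :
    DifferentiableOn ℂ (fam R h hb) R := by
  intro a ha
  obtain ⟨r, hr, hball⟩ := Metric.isOpen_iff.mp hR a ha
  have hder : ∀ i, ‖deriv (h i) a‖ ≤ 2 / r := by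
    intro i
    apply Complex.norm_deriv_le_div_of_mapsTo_ball ((hd i).mono hball) _ hr
    intro w hw
    rw [mem_closedBall, dist_eq_norm]
    calc ‖h i w - h i a‖ ≤ ‖h i w‖ + ‖h i a‖ := norm_sub_le _ _
      _ ≤ 2 := by linarith [hb i w (hball hw), hb i a ha]
  let D : BoundedContinuousFunction I ℂ :=
    BoundedContinuousFunction.ofNormedAddCommGroupDiscrete (fun i => deriv (h i) a) (2 / r) hder
  have key : HasDerivAt (fam R h hb) D a := by
    rw [hasDerivAt_iff_isLittleO]
    have hbig : (fun z => fam R h hb z - fam R h hb a - (z - a) • D) =O[𝓝 a]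
        (fun z => ‖z - a‖ ^ 2) := by
      apply IsBigO.of_bound (4 / r ^ 2)
      filter_upwards [ball_mem_nhds a hr] with z hz
      rw [BoundedContinuousFunction.norm_le (by positivity)]
      intro i
      have h1 : (fam R h hb z - fam R h hb a - (z - a) • D) i =
          h i z - h i a - (z - a) * deriv (h i) a := by
        show fam R h hb z i - fam R h hb a i - (z - a) * deriv (h i) a = _
        rw [fam_apply (hball hz), fam_apply ha]
      rw [h1]
      refine (taylor_two hr ((hd i).mono hball) (fun w hw => hb i w (hball hw)) hz).trans ?_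
      rw [Real.norm_of_nonneg (by positivity), dist_eq_norm]
      apply le_of_eq
      field_simp
    refine hbig.trans_isLittleO ?_
    have h2 : (fun z : ℂ => ‖z - a‖ ^ 2) =o[𝓝 a] (fun z => ‖z - a‖) := by
      have h3 : (fun z : ℂ => ‖z - a‖) =o[𝓝 a] (fun _ => (1 : ℝ)) := by
        rw [isLittleO_one_iff]
        have : Tendsto (fun z : ℂ => ‖z - a‖) (𝓝 a) (𝓝 ‖a - a‖) :=
          (continuous_id.sub continuous_const).norm.tendsto a
        simpa using this
      have h4 := h3.mul_isBigO (isBigO_refl (fun z : ℂ => ‖z - a‖) (𝓝 a))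
      refine (h4.congr_left ?_).congr_right ?_
      · intro z; ring
      · intro z; ring
    exact h2.of_norm_right
  exact key.differentiableAt.differentiableWithinAt

/-- uniform approximation of evaluations -/
theorem approx_eval {J : Type} {R : Set ℂ} (hR : IsOpen R) (hpre : IsPreconnected R)
    {h : J → ℂ → ℂ} (hd : ∀ i, DifferentiableOn ℂ (h i) R) (hb : ∀ i, ∀ z ∈ R, ‖h i z‖ ≤ 1)
    {S : Set ℂ} (hSR : S ⊆ R) {z₀ : ℂ} (hz₀ : z₀ ∈ R) (hacc : ∃ᶠ z in 𝓝[≠] z₀, z ∈ S)
    (T : Finset ℂ) (τ ζ : ℂ → ℂ) (hζ : ∀ x ∈ T, ζ x ∈ R) {ε : ℝ} (hε : 0 < ε) :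
    ∃ (T' : Finset ℂ) (τ' : ℂ → ℂ), (∀ x ∈ T', x ∈ S) ∧
      ∀ i, ‖∑ x ∈ T, τ x * h i (ζ x) - ∑ x ∈ T', τ' x * h i x‖ ≤ ε := by
  classical
  let _ : TopologicalSpace J := ⊥
  have _ : DiscreteTopology J := ⟨rfl⟩
  set U := fam R h hb with hU
  have hUd : DifferentiableOn ℂ U R := fam_differentiableOn hR hd hb
  set Y : Submodule ℂ (BoundedContinuousFunction J ℂ) :=
    (Submodule.span ℂ (U '' S)).topologicalClosure with hY
  have hYc : IsClosed (Y : Set (BoundedContinuousFunction J ℂ)) :=
    Submodule.isClosed_topologicalClosure _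
  -- the composition with the quotient map
  have hq : AnalyticOnNhd ℂ (fun z => Y.mkQL (U z)) R := by
    apply DifferentiableOn.analyticOnNhd _ hR
    exact (Y.mkQL).differentiable.comp_differentiableOn hUd
  have hzero : EqOn (fun z => Y.mkQL (U z)) 0 R := by
    apply hq.eqOn_zero_of_preconnected_of_frequently_eq_zero hpre hz₀
    refine hacc.mono ?_
    intro z hz
    have h1 : U z ∈ Y := Submodule.le_topologicalClosure _ (Submodule.subset_span ⟨z, hz, rfl⟩)
    exact (Submodule.Quotient.mk_eq_zero Y).mpr h1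
  have hmem : ∀ z ∈ R, U z ∈ Y := by
    intro z hz
    exact (Submodule.Quotient.mk_eq_zero Y).mp (hzero hz)
  have hsum : ∑ x ∈ T, τ x • U (ζ x) ∈ Y :=
    Submodule.sum_mem _ fun x hx => Submodule.smul_mem _ _ (hmem _ (hζ x hx))
  have hcl : ∑ x ∈ T, τ x • U (ζ x) ∈
      closure (Submodule.span ℂ (U '' S) : Set (BoundedContinuousFunction J ℂ)) := by
    rw [← Submodule.topologicalClosure_coe]
    exact hsum
  obtain ⟨y, hy, hdist⟩ := Metric.mem_closure_iff.mp hcl ε hε
  obtain ⟨l, hl, hly⟩ := (Finsupp.mem_span_image_iff_linearCombination ℂ).mp hy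
  refine ⟨l.support, l, ?_, ?_⟩
  · intro x hx
    exact hl hx
  · intro i
    have h1 : ‖(∑ x ∈ T, τ x • U (ζ x) - y) i‖ ≤ ε :=
      (BoundedContinuousFunction.norm_coe_le_norm _ i).trans (by
        rw [← dist_eq_norm]
        exact hdist.le)
    have h2 : (∑ x ∈ T, τ x • U (ζ x) - y) i =
        ∑ x ∈ T, τ x * h i (ζ x) - ∑ x ∈ l.support, l x * h i x := by
      rw [BoundedContinuousFunction.coe_sub, Pi.sub_apply, BoundedContinuousFunction.coe_sum,
        Finset.sum_apply]
      congr 1
      · apply Finset.sum_congr rfl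
        intro x hx
        show τ x * U (ζ x) i = _
        rw [hU, fam_apply (hζ x hx)]
      · rw [← hly, Finsupp.linearCombination_apply, Finsupp.sum,
          BoundedContinuousFunction.coe_sum, Finset.sum_apply]
        apply Finset.sum_congr rfl
        intro x hx
        show l x * U x i = _
        rw [hU, fam_apply (hSR (hl hx))]
    rw [← h2]
    exact h1

end Pool.Agent.Helper99.RT
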