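import Pool.Agent.Helper99.RT.Kern

/-!
# The limit function and the final statement
-/

namespace Pool.Agent.Helper99.RT

open Set Filter Topology MeasureTheory

theorem gg_close (k : ℕ) (r : ℝ) :
    ‖gg (k + 1) r - gg k r‖ ≤ (1 / 2) ^ (k + 4) * Real.exp (|r| / 2) := by
  refine ((good k).hg r).trans ?_
  gcongr
  exact (inv k).wt.le r

theorem gg_dist (r : ℝ) (k : ℕ) :
    dist (gg k r) (gg (k + 1) r) ≤ (1 / 16 * Real.exp (|r| / 2)) * (1 / 2) ^ k := by
  rw [dist_comm, dist_eq_norm]
  refine (gg_close k r).trans (le_of_eq ?_)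
  rw [pow_add]
  norm_num
  ring

theorem gg_cauchy (r : ℝ) : CauchySeq fun k => gg k r :=
  cauchySeq_of_le_geometric (1 / 2) (1 / 16 * Real.exp (|r| / 2)) (by norm_num) (gg_dist r)

/-- the annihilator -/
noncomputable def gl (r : ℝ) : ℂ := (cauchySeq_tendsto_of_complete (gg_cauchy r)).choose

theorem gg_tendsto (r : ℝ) : Tendsto (fun k => gg k r) atTop (𝓝 (gl r)) :=
  (cauchySeq_tendsto_of_complete (gg_cauchy r)).choose_spec

theorem gg_continuous (k : ℕ) : Continuous (gg k) := by
  unfold gg Data.g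
  fun_prop

theorem gl_measurable : Measurable gl :=
  measurable_of_tendsto_metrizable (fun k => (gg_continuous k).measurable)
    (tendsto_pi_nhds.mpr gg_tendsto)

theorem gg_bound (k : ℕ) (t : ℝ) : ‖gg k t‖ ≤ 2 * Real.exp (om k t) := by
  refine ((inv k).bd t).trans ?_
  have : (0 : ℝ) < (1 / 2) ^ k := by positivity
  show (2 - (1 / 2) ^ k) * Real.exp (om k t) ≤ 2 * Real.exp (om k t)
  gcongr
  linarith

theorem gl_bound (t : ℝ) : ‖gl t‖ ≤ 2 * Real.exp (omega t) := by
  apply le_of_tendsto_of_tendsto' (gg_tendsto t).norm _ (fun k => gg_bound k t)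
  exact ((Real.continuous_exp.tendsto _).comp (om_tendsto t)).const_mul 2

theorem gl_ne_zero {t : ℝ} (h0 : 0 ≤ t) (h1 : t ≤ 1) : gl t ≠ 0 := by
  intro h
  have h2 := dist_le_of_le_geometric_of_tendsto₀ (1 / 2) (1 / 16 * Real.exp (|t| / 2))
    (by norm_num) (gg_dist t) (gg_tendsto t)
  rw [h, dist_zero_right] at h2
  have h3 : ‖gg 0 t‖ = 1 := by
    show ‖∑ x ∈ ({65 * Complex.I} : Finset ℂ), (1 : ℂ) * Complex.exp (-(x * t))‖ = 1
    rw [Finset.sum_singleton, one_mul, Complex.norm_exp]
    have : (-((65 : ℂ) * Complex.I * t)).re = 0 := by simp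
    rw [this, Real.exp_zero]
  rw [h3, abs_of_nonneg h0] at h2
  have h4 : Real.exp (t / 2) ≤ 3 := by
    have h5 : Real.exp (t / 2) ≤ Real.exp 1 := Real.exp_le_exp.mpr (by linarith)
    linarith [Real.exp_one_lt_d9]
  norm_num at h2
  linarith

/-! ### annihilation -/

theorem partial_annihilate (n : ℕ) (τ : ℝ) :
    ‖∫ t in Ioi (0 : ℝ), (fp n t : ℂ) * gg n (t + τ)‖ ≤ Real.exp (|τ| / 2) * (sz n / 2) := by
  have hI := inv n
  have e : (fun t : ℝ => (fp n t : ℂ) * gg n (t + τ)) = fun t : ℝ =>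
      ∑ x ∈ (stage n).1.T, ((stage n).1.τ x * Complex.exp (-((stage n).1.ζ x * τ))) *
        ((fp n t : ℂ) * Complex.exp (-((stage n).1.ζ x * t))) := by
    funext t
    show (fp n t : ℂ) * ∑ x ∈ (stage n).1.T, (stage n).1.τ x *
      Complex.exp (-((stage n).1.ζ x * ((t + τ : ℝ) : ℂ))) = _
    rw [Finset.mul_sum]
    apply Finset.sum_congr rfl
    intro x _
    have : -((stage n).1.ζ x * ((t + τ : ℝ) : ℂ)) =
        -((stage n).1.ζ x * τ) + -((stage n).1.ζ x * t) := by
      push_cast
      ring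
    rw [this, Complex.exp_add]
    ring
  have hre : ∀ x ∈ (stage n).1.T, -1 < ((stage n).1.ζ x).re := by
    intro x hx
    have h1 := (abs_lt.mp (hI.node x hx).1).1
    have h2 := hI.σ_le
    have h3 := hI.wt.rho_le
    linarith
  have h1 : ∀ x ∈ (stage n).1.T, Integrable (fun t : ℝ =>
      ((stage n).1.τ x * Complex.exp (-((stage n).1.ζ x * τ))) *
        ((fp n t : ℂ) * Complex.exp (-((stage n).1.ζ x * t)))) (volume.restrict (Ioi 0)) :=
    fun x hx => (fp_integral n (hre x hx)).1.const_mul _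
  rw [e, integral_finsetSum _ h1]
  refine (norm_sum_le _ _).trans ?_
  have h2 : ∀ x ∈ (stage n).1.T, ‖∫ t in Ioi (0 : ℝ),
      ((stage n).1.τ x * Complex.exp (-((stage n).1.ζ x * τ))) *
        ((fp n t : ℂ) * Complex.exp (-((stage n).1.ζ x * t)))‖ ≤
      Real.exp (|τ| / 2) * (‖(stage n).1.τ x‖ * ‖(stage n).1.F ((stage n).1.ζ x)‖) := by
    intro x hx
    rw [integral_const_mul, (fp_integral n (hre x hx)).2, norm_mul, norm_mul]
    have h3 := norm_exp_le_omega hI.wt (hI.node x hx).1.le hI.σ_le τ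
    have h4 : Real.exp ((stage n).1.ω τ) ≤ Real.exp (|τ| / 2) :=
      Real.exp_le_exp.mpr (hI.wt.le τ)
    calc ‖(stage n).1.τ x‖ * ‖Complex.exp (-((stage n).1.ζ x * τ))‖ *
          ‖(stage n).1.F ((stage n).1.ζ x)‖
        ≤ ‖(stage n).1.τ x‖ * Real.exp (|τ| / 2) * ‖(stage n).1.F ((stage n).1.ζ x)‖ := by
          gcongr
          exact h3.trans h4
      _ = _ := by ring
  refine (Finset.sum_le_sum h2).trans ?_
  rw [← Finset.mul_sum]
  gcongr
  exact hI.ann

theorem annihilate (τ : ℝ) : ∫ t in Ioi (0 : ℝ), (ff t : ℂ) * gl (t + τ) = 0 := by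
  have ht : Tendsto (fun n => ∫ t in Ioi (0 : ℝ), (fp n t : ℂ) * gg n (t + τ)) atTop
      (𝓝 (∫ t in Ioi (0 : ℝ), (ff t : ℂ) * gl (t + τ))) := by
    apply tendsto_integral_of_dominated_convergence (fun t => 2 * Real.exp (|τ| / 2) * hh t)
    · intro n
      apply Measurable.aestronglyMeasurable
      have h1 := fp_measurable n
      have h2 := (gg_continuous n).measurable
      exact (Complex.measurable_ofReal.comp h1).mul (h2.comp (measurable_id.add_const τ))
    · exact hh_integrable.const_mul _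
    · intro n
      apply ae_of_all
      intro t
      rw [norm_mul, Complex.norm_real, Real.norm_of_nonneg (fp_nonneg n t)]
      calc fp n t * ‖gg n (t + τ)‖ ≤ fp n t * (2 * Real.exp (om n (t + τ))) :=
            mul_le_mul_of_nonneg_left (gg_bound n _) (fp_nonneg n t)
        _ = 2 * (fp n t * Real.exp (om n (t + τ))) := by ring
        _ ≤ 2 * (Real.exp (|τ| / 2) * hh t) :=
            mul_le_mul_of_nonneg_left (fp_mul_exp n t τ) (by norm_num)
        _ = _ := by ring
    · apply ae_of_all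
      intro t
      exact ((Complex.continuous_ofReal.tendsto _).comp (fp_tendsto t)).mul (gg_tendsto _)
  have h0 : Tendsto (fun n => ∫ t in Ioi (0 : ℝ), (fp n t : ℂ) * gg n (t + τ)) atTop (𝓝 0) := by
    apply squeeze_zero_norm (partial_annihilate · τ)
    have h1 : Tendsto (fun n => Real.exp (|τ| / 2) * (sz n / 2)) atTop
        (𝓝 (Real.exp (|τ| / 2) * (0 / 2))) := by
      apply Tendsto.const_mul
      apply Tendsto.div_const
      unfold sz
      exact (tendsto_pow_atTop_nhds_zero_of_lt_one (by norm_num) (by norm_num)).comp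
        (tendsto_add_atTop_nat 4)
    simpa using h1
  exact tendsto_nhds_unique ht h0

/-! ### the transform of `f` -/

/-- Laplace form of the transform -/
noncomputable def lap (w : ℂ) : ℂ := ∫ t in Ioi (0 : ℝ), (ff t : ℂ) * Complex.exp (-(w * t))

theorem norm_exp_le_one {w : ℂ} (hw : 0 ≤ w.re) {t : ℝ} (ht : 0 ≤ t) :
    ‖Complex.exp (-(w * t))‖ ≤ 1 := by
  rw [Complex.norm_exp]
  have : (-(w * (t : ℂ))).re = -(w.re * t) := by simp
  rw [this]
  apply Real.exp_le_one_iff.mpr
  have := mul_nonneg hw ht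
  linarith

theorem lap_tendsto {w : ℂ} (hw : 0 ≤ w.re) :
    Tendsto (fun n => (stage n).1.F w) atTop (𝓝 (lap w)) := by
  have e : ∀ n, (stage n).1.F w = ∫ t in Ioi (0 : ℝ), (fp n t : ℂ) * Complex.exp (-(w * t)) :=
    fun n => (fp_integral n (by linarith)).2.symm
  simp_rw [e]
  apply tendsto_integral_of_dominated_convergence hh
  · intro n
    exact (fp_integral n (by linarith)).1.aestronglyMeasurable
  · exact hh_integrable
  · intro n
    filter_upwards [ae_restrict_mem measurableSet_Ioi] with t ht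
    rw [norm_mul, Complex.norm_real, Real.norm_of_nonneg (fp_nonneg n t)]
    calc fp n t * ‖Complex.exp (-(w * t))‖ ≤ fp n t * 1 :=
          mul_le_mul_of_nonneg_left (norm_exp_le_one hw (le_of_lt ht)) (fp_nonneg n t)
      _ ≤ hh t := by rw [mul_one]; exact fp_le_hh n t
  · apply ae_of_all
    intro t
    exact ((Complex.continuous_ofReal.tendsto _).comp (fp_tendsto t)).mul tendsto_const_nhds

theorem lap_lower {w : ℂ} (hw : 0 ≤ w.re) : 1 / 2 / ‖1 + w‖ ≤ ‖lap w‖ := by
  apply ge_of_tendsto (lap_tendsto hw).norm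
  filter_upwards with n
  refine le_trans ?_ ((inv n).Flow w hw)
  have : (0 : ℝ) < (1 / 2) ^ (n + 1) := by positivity
  gcongr
  linarith

theorem lap_upper {w : ℂ} (hw : 0 ≤ w.re) : ‖lap w‖ ≤ ∫ t in Ioi (0 : ℝ), hh t := by
  unfold lap
  apply norm_integral_le_of_norm_le hh_integrable
  filter_upwards [ae_restrict_mem measurableSet_Ioi] with t ht
  rw [norm_mul, Complex.norm_real, Real.norm_of_nonneg (ff_nonneg t)]
  calc ff t * ‖Complex.exp (-(w * t))‖ ≤ ff t * 1 :=
        mul_le_mul_of_nonneg_left (norm_exp_le_one hw (le_of_lt ht)) (ff_nonneg t)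
    _ ≤ hh t := by rw [mul_one]; exact ff_le_hh t

theorem hh_integral_pos : 0 < ∫ t in Ioi (0 : ℝ), hh t := by
  have h1 := lap_lower (w := 0) (by simp)
  have h2 := lap_upper (w := 0) (by simp)
  rw [add_zero, norm_one] at h1
  linarith

theorem log_tendsto : Tendsto (fun y : ℝ => Real.log ‖lap (-(y : ℂ))‖ / |y|) atBot (𝓝 0) := by
  set K : ℝ := ∫ t in Ioi (0 : ℝ), hh t with hK
  have hK0 : 0 < K := hh_integral_pos
  have hlim : Tendsto (fun s : ℝ => (|Real.log K| + (Real.log 2 + Real.log (1 + s))) / s) atTop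
      (𝓝 0) := by
    have h1 : Tendsto (fun s : ℝ => (|Real.log K| + Real.log 2) / s) atTop (𝓝 0) :=
      tendsto_const_nhds.div_atTop tendsto_id
    have h2 : Tendsto (fun s : ℝ => Real.log (1 + s) / s) atTop (𝓝 0) := by
      have h3 : (fun s : ℝ => Real.log (1 + s)) =o[atTop] (fun s : ℝ => 1 + s) :=
        Real.isLittleO_log_id_atTop.comp_tendsto (tendsto_atTop_add_const_left _ _ tendsto_id)
      have h4 : (fun s : ℝ => 1 + s) =O[atTop] (fun s : ℝ => s) := by
        apply Asymptotics.IsBigO.of_bound 2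
        filter_upwards [eventually_ge_atTop (1 : ℝ)] with s hs
        rw [Real.norm_of_nonneg (by linarith), Real.norm_of_nonneg (by linarith)]
        linarith
      exact (h3.trans_isBigO h4).tendsto_div_nhds_zero
    have h5 := h1.add h2
    rw [add_zero] at h5
    refine h5.congr ?_
    intro s
    ring
  have hlim' := hlim.comp tendsto_neg_atBot_atTop
  apply squeeze_zero_norm' _ hlim'
  filter_upwards [eventually_lt_atBot (0 : ℝ)] with y hy
  have hre : 0 ≤ (-(y : ℂ)).re := by
    rw [Complex.neg_re, Complex.ofReal_re]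
    linarith
  have hn : ‖1 + -(y : ℂ)‖ = 1 - y := by
    have : (1 : ℂ) + -(y : ℂ) = ((1 - y : ℝ) : ℂ) := by push_cast; ring
    rw [this, Complex.norm_real, Real.norm_of_nonneg (by linarith)]
  have h1 := lap_lower hre
  have h2 := lap_upper hre
  rw [hn] at h1
  have hpos : 0 < 1 / 2 / (1 - y) := by
    apply div_pos (by norm_num)
    linarith
  have hl0 : 0 < ‖lap (-(y : ℂ))‖ := lt_of_lt_of_le hpos h1
  have h3 : Real.log ‖lap (-(y : ℂ))‖ ≤ Real.log K := Real.log_le_log hl0 h2
  have h4 : -(Real.log 2 + Real.log (1 - y)) ≤ Real.log ‖lap (-(y : ℂ))‖ := by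
    have h5 := Real.log_le_log hpos h1
    rw [Real.log_div (by norm_num) (by linarith), one_div, Real.log_inv] at h5
    linarith
  have hlog2 : 0 ≤ Real.log 2 := Real.log_nonneg (by norm_num)
  have hlog1 : 0 ≤ Real.log (1 - y) := Real.log_nonneg (by linarith)
  show ‖Real.log ‖lap (-(y : ℂ))‖ / |y|‖ ≤ (|Real.log K| + (Real.log 2 + Real.log (1 + -y))) / -y
  have e1 : |y| = -y := abs_of_neg hy
  rw [Real.norm_eq_abs, abs_div, abs_abs, e1, ← sub_eq_add_neg]
  have hy' : 0 < -y := by linarith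
  gcongr
  rw [abs_le]
  constructor
  · have := abs_nonneg (Real.log K)
    linarith
  · have := le_abs_self (Real.log K)
    linarith

/-! ### limits of the weight -/

theorem omega_tendsto_top : Tendsto (fun t => omega t / t) atTop (𝓝 0) := by
  rw [Metric.tendsto_atTop]
  intro ε hε
  obtain ⟨K, hK0, hK⟩ := omega_div_small (ε / 2) (by linarith)
  refine ⟨K, fun t ht => ?_⟩
  rw [Real.dist_eq, sub_zero]
  have := hK t (ht.trans (le_abs_self t))
  linarith

theorem omega_tendsto_bot : Tendsto (fun t => omega t / t) atBot (𝓝 0) := by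
  rw [Metric.tendsto_nhds]
  intro ε hε
  obtain ⟨K, hK0, hK⟩ := omega_div_small (ε / 2) (by linarith)
  filter_upwards [eventually_le_atBot (-K)] with t ht
  rw [Real.dist_eq, sub_zero]
  have := hK t (by
    have := neg_le_abs t
    linarith)
  linarith

end Pool.Agent.Helper99.RT
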