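import Pool.Agent.Helper99.RT.Seq

/-!
# The function `f` as a sum of narrow exponentials
-/

namespace Pool.Agent.Helper99.RT

open Set Filter Topology MeasureTheory

/-- narrow exponential starting at `p.N` -/
noncomputable def kap (p : Par) (t : ℝ) : ℝ :=
  (Ioi p.N).indicator (fun t => p.b / p.α * Real.exp (-((t - p.N) / p.α))) t

/-- the sequence of parameters, with the initial exponential in position `0` -/
noncomputable def qq : ℕ → Par
  | 0 => ⟨0, 1, 0, 1⟩
  | k + 1 => par k

structure POk (p : Par) : Prop where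
  hN : 0 ≤ p.N
  hb : 0 < p.b
  hα : 0 < p.α
  hα1 : p.α ≤ 1

theorem qq_ok (k : ℕ) : POk (qq k) := by
  cases k with
  | zero => exact ⟨le_rfl, one_pos, one_pos, le_rfl⟩
  | succ k =>
    have h := good k
    have hk : (0 : ℝ) ≤ k := Nat.cast_nonneg k
    exact ⟨by have := h.hN; show 0 ≤ (par k).N; linarith, h.hb, h.hα, h.hα1⟩

theorem kap_nonneg {p : Par} (h : POk p) (t : ℝ) : 0 ≤ kap p t := by
  apply indicator_nonneg
  intro t _
  have := h.hb
  have := h.hα
  positivity

theorem kap_measurable (p : Par) : Measurable (kap p) := by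
  apply Measurable.indicator _ measurableSet_Ioi
  fun_prop

theorem kap_zero {p : Par} {t : ℝ} (h : t ≤ p.N) : kap p t = 0 :=
  indicator_of_notMem (by simpa using h) _

/-- integral of the kernel against a complex exponential -/
theorem kap_integral {p : Par} (h : POk p) {w : ℂ} (hw : -1 < w.re) :
    IntegrableOn (fun t : ℝ => (kap p t : ℂ) * Complex.exp (-(w * t))) (Ioi 0) ∧
    ∫ t in Ioi (0 : ℝ), (kap p t : ℂ) * Complex.exp (-(w * t)) =
      p.b * Complex.exp (-(p.N * w)) / (1 + p.α * w) := by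
  have hα := h.hα
  have hα' : (p.α : ℂ) ≠ 0 := Complex.ofReal_ne_zero.mpr hα.ne'
  set a : ℂ := -(1 / p.α + w) with ha
  have ha_re : a.re < 0 := by
    have h1 : a.re = -(1 / p.α + w.re) := by
      rw [ha]
      simp
    rw [h1]
    have h2 : 1 ≤ 1 / p.α := by
      rw [le_div_iff₀ hα]
      linarith [h.hα1]
    linarith
  have hfun : (fun t : ℝ => (kap p t : ℂ) * Complex.exp (-(w * t))) =
      (Ioi p.N).indicator (fun t : ℝ => (p.b / p.α * Complex.exp (p.N / p.α)) *
        Complex.exp (a * t)) := by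
    funext t
    by_cases ht : t ∈ Ioi p.N
    · rw [kap, indicator_of_mem ht, indicator_of_mem ht]
      push_cast
      rw [mul_assoc, mul_assoc, ← Complex.exp_add, ← Complex.exp_add]
      congr 2
      rw [ha]
      field_simp
      ring
    · rw [kap, indicator_of_notMem ht, indicator_of_notMem ht]
      simp
  have hset : Ioi (0 : ℝ) ∩ Ioi p.N = Ioi p.N := by
    apply inter_eq_self_of_subset_right
    exact Ioi_subset_Ioi h.hN
  constructor
  · rw [hfun, integrableOn_indicator_iff measurableSet_Ioi, inter_comm, hset]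
    exact (integrableOn_exp_mul_complex_Ioi ha_re p.N).const_mul _
  · rw [hfun, setIntegral_indicator measurableSet_Ioi, hset, integral_const_mul,
      integral_exp_mul_complex_Ioi ha_re]
    have ha0 : a ≠ 0 := by
      intro h0
      rw [h0] at ha_re
      simp at ha_re
    have hne : 1 + (p.α : ℂ) * w ≠ 0 := kern_ne hα h.hα1 hw
    have e1 : Complex.exp (p.N / p.α) * Complex.exp (a * p.N) = Complex.exp (-(p.N * w)) := by
      rw [← Complex.exp_add]
      congr 1
      rw [ha]
      field_simp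
      ring
    have e2 : a = -((1 + p.α * w) / p.α) := by
      rw [ha]
      field_simp
    calc (p.b / p.α * Complex.exp (p.N / p.α)) * (-Complex.exp (a * p.N) / a)
        = (p.b / p.α) * (Complex.exp (p.N / p.α) * Complex.exp (a * p.N)) * (-1 / a) := by ring
      _ = (p.b / p.α) * Complex.exp (-(p.N * w)) * (-1 / a) := by rw [e1]
      _ = _ := by
        rw [e2]
        field_simp

/-- weighted kernel -/
noncomputable def wk (p : Par) (t : ℝ) : ℝ := kap p t * Real.exp (p.c + (t - p.N) / 2)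

theorem wk_nonneg {p : Par} (h : POk p) (t : ℝ) : 0 ≤ wk p t :=
  mul_nonneg (kap_nonneg h t) (Real.exp_pos _).le

theorem wk_integral {p : Par} (h : POk p) :
    IntegrableOn (wk p) (Ioi 0) ∧ ∫ t in Ioi (0 : ℝ), wk p t ≤ 2 * (p.b * Real.exp p.c) := by
  have hα := h.hα
  have hα1 := h.hα1
  obtain ⟨h1, h2⟩ := kap_integral h (w := ((-1 / 2 : ℝ) : ℂ)) (by rw [Complex.ofReal_re]; norm_num)
  have e : ∀ t : ℝ, ((wk p t : ℝ) : ℂ) = (Real.exp (p.c - p.N / 2) : ℝ) *
      ((kap p t : ℂ) * Complex.exp (-(((-1 / 2 : ℝ) : ℂ) * t))) := by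
    intro t
    have e1 : Complex.exp (-(((-1 / 2 : ℝ) : ℂ) * t)) = ((Real.exp (t / 2) : ℝ) : ℂ) := by
      rw [Complex.ofReal_exp]
      congr 1
      push_cast
      ring
    rw [e1, wk, ← Complex.ofReal_mul, ← Complex.ofReal_mul]
    congr 1
    rw [← mul_assoc, mul_comm (Real.exp (p.c - p.N / 2)), mul_assoc, ← Real.exp_add]
    congr 2
    ring
  have hint : IntegrableOn (fun t => ((wk p t : ℝ) : ℂ)) (Ioi 0) := by
    have : (fun t => ((wk p t : ℝ) : ℂ)) = fun t : ℝ => ((Real.exp (p.c - p.N / 2) : ℝ) : ℂ) *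
      ((kap p t : ℂ) * Complex.exp (-(((-1 / 2 : ℝ) : ℂ) * t))) := funext e
    rw [this]
    exact h1.const_mul _
  have hintR : IntegrableOn (wk p) (Ioi 0) := by
    have h9 : Integrable (fun x => wk p x) (volume.restrict (Ioi 0)) := by
      simpa using hint.re
    exact h9
  refine ⟨hintR, ?_⟩
  have h3 : ((∫ t in Ioi (0 : ℝ), wk p t : ℝ) : ℂ) = (Real.exp (p.c - p.N / 2) : ℝ) *
      (p.b * Complex.exp (-(p.N * ((-1 / 2 : ℝ) : ℂ))) / (1 + p.α * ((-1 / 2 : ℝ) : ℂ))) := by
    rw [← integral_complex_ofReal, integral_congr_ae (ae_of_all _ e), integral_const_mul, h2]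
  have h4 : (∫ t in Ioi (0 : ℝ), wk p t) = Real.exp (p.c - p.N / 2) *
      (p.b * Real.exp (p.N / 2) / (1 - p.α / 2)) := by
    apply Complex.ofReal_injective
    rw [h3]
    push_cast
    congr 3
    · congr 1
      ring
    · ring
  rw [h4]
  have h5 : 1 / 2 ≤ 1 - p.α / 2 := by linarith
  have e2 : Real.exp (p.c - p.N / 2) * (p.b * Real.exp (p.N / 2) / (1 - p.α / 2)) =
      (p.b * Real.exp p.c) / (1 - p.α / 2) := by
    have : Real.exp p.c = Real.exp (p.c - p.N / 2) * Real.exp (p.N / 2) := by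
      rw [← Real.exp_add]
      congr 1
      ring
    rw [this]
    ring
  rw [e2, div_le_iff₀ (by linarith)]
  have h6 : 0 < p.b * Real.exp p.c := mul_pos h.hb (Real.exp_pos _)
  nlinarith

/-! ### partial sums -/

theorem qq_N (k : ℕ) : (k : ℝ) ≤ (qq k).N := by
  cases k with
  | zero => simp [qq]
  | succ k =>
    show ((k + 1 : ℕ) : ℝ) ≤ (par k).N
    push_cast
    exact (good k).hN

/-- partial sums of `f` -/
noncomputable def fp (n : ℕ) (t : ℝ) : ℝ := ∑ k ∈ Finset.range (n + 1), kap (qq k) t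

/-- the function `f` -/
noncomputable def ff (t : ℝ) : ℝ := fp ⌈t⌉₊ t

/-- partial sums of the majorant -/
noncomputable def hp (n : ℕ) (t : ℝ) : ℝ := ∑ k ∈ Finset.range (n + 1), wk (qq k) t

/-- the majorant -/
noncomputable def hh (t : ℝ) : ℝ := hp ⌈t⌉₊ t

theorem kap_qq_zero {k : ℕ} {t : ℝ} (h : ⌈t⌉₊ < k) : kap (qq k) t = 0 := by
  apply kap_zero
  have h1 : t ≤ ⌈t⌉₊ := Nat.le_ceil t
  have h2 : ((⌈t⌉₊ : ℕ) : ℝ) ≤ k := by exact_mod_cast h.le
  exact (h1.trans h2).trans (qq_N k)

theorem sum_stable {u : ℕ → ℝ} {a n : ℕ} (h : a ≤ n) (hu : ∀ k, a < k → u k = 0) :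
    ∑ k ∈ Finset.range (n + 1), u k = ∑ k ∈ Finset.range (a + 1), u k := by
  symm
  apply Finset.sum_subset
  · intro k hk
    rw [Finset.mem_range] at hk ⊢
    omega
  · intro k _ hk
    apply hu
    rw [Finset.mem_range] at hk
    omega

theorem fp_eq {n : ℕ} {t : ℝ} (h : ⌈t⌉₊ ≤ n) : fp n t = ff t :=
  sum_stable h fun _ hk => kap_qq_zero hk

theorem hp_eq {n : ℕ} {t : ℝ} (h : ⌈t⌉₊ ≤ n) : hp n t = hh t :=
  sum_stable h fun k hk => by rw [wk, kap_qq_zero hk, zero_mul]

theorem hp_le_hh (n : ℕ) (t : ℝ) : hp n t ≤ hh t := by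
  rcases le_total ⌈t⌉₊ n with h | h
  · exact (hp_eq h).le
  · unfold hh hp
    apply Finset.sum_le_sum_of_subset_of_nonneg
    · intro k hk
      rw [Finset.mem_range] at hk ⊢
      omega
    · intro k _ _
      exact wk_nonneg (qq_ok k) t

theorem fp_nonneg (n : ℕ) (t : ℝ) : 0 ≤ fp n t :=
  Finset.sum_nonneg fun k _ => kap_nonneg (qq_ok k) t

theorem hp_nonneg (n : ℕ) (t : ℝ) : 0 ≤ hp n t :=
  Finset.sum_nonneg fun k _ => wk_nonneg (qq_ok k) t

theorem ff_nonneg (t : ℝ) : 0 ≤ ff t := fp_nonneg _ t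

theorem hh_nonneg (t : ℝ) : 0 ≤ hh t := hp_nonneg _ t

theorem ff_of_nonpos {t : ℝ} (h : t ≤ 0) : ff t = 0 := by
  unfold ff fp
  apply Finset.sum_eq_zero
  intro k _
  apply kap_zero
  exact h.trans ((Nat.cast_nonneg k).trans (qq_N k))

theorem fp_tendsto (t : ℝ) : Tendsto (fun n => fp n t) atTop (𝓝 (ff t)) := by
  apply tendsto_const_nhds.congr'
  filter_upwards [eventually_ge_atTop ⌈t⌉₊] with n hn
  exact (fp_eq hn).symm

theorem hp_tendsto (t : ℝ) : Tendsto (fun n => hp n t) atTop (𝓝 (hh t)) := by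
  apply tendsto_const_nhds.congr'
  filter_upwards [eventually_ge_atTop ⌈t⌉₊] with n hn
  exact (hp_eq hn).symm

theorem wk_measurable (p : Par) : Measurable (wk p) := by
  unfold wk
  have := kap_measurable p
  fun_prop

theorem fp_measurable (n : ℕ) : Measurable (fp n) :=
  Finset.measurable_sum _ fun _ _ => kap_measurable _

theorem hp_measurable (n : ℕ) : Measurable (hp n) :=
  Finset.measurable_sum _ fun _ _ => wk_measurable _

theorem ff_measurable : Measurable ff :=
  measurable_of_tendsto_metrizable fp_measurable (tendsto_pi_nhds.mpr fp_tendsto)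

theorem hh_measurable : Measurable hh :=
  measurable_of_tendsto_metrizable hp_measurable (tendsto_pi_nhds.mpr hp_tendsto)

theorem hp_integral (n : ℕ) :
    IntegrableOn (hp n) (Ioi 0) ∧ ∫ t in Ioi (0 : ℝ), hp n t ≤ 4 := by
  have h1 : ∀ k ∈ Finset.range (n + 1), IntegrableOn (wk (qq k)) (Ioi 0) := fun k _ =>
    (wk_integral (qq_ok k)).1
  have hfun : hp n = fun t => ∑ k ∈ Finset.range (n + 1), wk (qq k) t := rfl
  constructor
  · rw [hfun]
    exact integrable_finsetSum _ h1
  · rw [hfun, integral_finsetSum _ h1, Finset.sum_range_succ']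
    have h2 : ∫ t in Ioi (0 : ℝ), wk (qq 0) t ≤ 2 := by
      refine (wk_integral (qq_ok 0)).2.trans ?_
      simp [qq]
    have h3 : ∑ k ∈ Finset.range n, ∫ t in Ioi (0 : ℝ), wk (qq (k + 1)) t ≤
        ∑ k ∈ Finset.range n, (1 / 4) * (1 / 2 : ℝ) ^ k := by
      apply Finset.sum_le_sum
      intro k _
      refine (wk_integral (qq_ok (k + 1))).2.trans ?_
      have : (qq (k + 1)).b * Real.exp (qq (k + 1)).c = sz k := (good k).hs
      rw [this, sz, pow_add]
      have : (0 : ℝ) < (1 / 2) ^ k := by positivity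
      norm_num
      linarith
    have h4 : ∑ k ∈ Finset.range n, (1 / 4) * (1 / 2 : ℝ) ^ k ≤ 2 := by
      rw [← Finset.mul_sum]
      have := sum_geometric_two_le n
      linarith
    linarith

theorem hh_integrable : IntegrableOn hh (Ioi 0) := by
  refine ⟨hh_measurable.aestronglyMeasurable, ?_⟩
  have h1 : ∫⁻ t in Ioi (0 : ℝ), ‖hh t‖ₑ ≤ ENNReal.ofReal 4 := by
    have h2 : ∀ t, liminf (fun n => ‖hp n t‖ₑ) atTop = ‖hh t‖ₑ := by
      intro t
      have h3 : Tendsto (fun n => ‖hp n t‖ₑ) atTop (𝓝 ‖hh t‖ₑ) :=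
        (continuous_enorm.tendsto _).comp (hp_tendsto t)
      exact h3.liminf_eq
    calc ∫⁻ t in Ioi (0 : ℝ), ‖hh t‖ₑ
        = ∫⁻ t in Ioi (0 : ℝ), liminf (fun n => ‖hp n t‖ₑ) atTop := by simp_rw [h2]
      _ ≤ liminf (fun n => ∫⁻ t in Ioi (0 : ℝ), ‖hp n t‖ₑ) atTop :=
          lintegral_liminf_le fun n => (hp_measurable n).enorm
      _ ≤ ENNReal.ofReal 4 := by
          apply liminf_le_of_le
          · isBoundedDefault
          · intro b hb
            obtain ⟨n, hn⟩ := hb.exists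
            refine hn.trans ?_
            rw [← ofReal_integral_norm_eq_lintegral_enorm (hp_integral n).1]
            apply ENNReal.ofReal_le_ofReal
            refine le_trans (le_of_eq ?_) (hp_integral n).2
            apply integral_congr_ae
            exact ae_of_all _ fun t => Real.norm_of_nonneg (hp_nonneg n t)
  exact lt_of_le_of_lt h1 ENNReal.ofReal_lt_top

theorem kap_le_wk (k : ℕ) (t : ℝ) : kap (qq k) t ≤ wk (qq k) t := by
  rcases le_or_gt t (qq k).N with h | h
  · rw [wk, kap_zero h, zero_mul]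
  · have hc : 0 ≤ (qq k).c := by
      cases k with
      | zero => exact le_rfl
      | succ k => exact (good k).hc.le
    rw [wk]
    have h1 : 1 ≤ Real.exp ((qq k).c + (t - (qq k).N) / 2) := by
      apply Real.one_le_exp
      linarith
    have h2 := kap_nonneg (qq_ok k) t
    nlinarith

theorem ff_le_hh (t : ℝ) : ff t ≤ hh t := by
  unfold ff hh fp hp
  exact Finset.sum_le_sum fun k _ => kap_le_wk k t

theorem fp_le_hh (n : ℕ) (t : ℝ) : fp n t ≤ hh t :=
  (Finset.sum_le_sum fun k _ => kap_le_wk k t).trans (hp_le_hh n t)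

/-- weights at the starting points -/
theorem om_N (k : ℕ) : om k (qq k).N ≤ (qq k).c := by
  cases k with
  | zero =>
    have : om 0 0 = 0 := (inv 0).wt.zero
    exact this.le
  | succ k =>
    show om (k + 1) (par k).N ≤ (par k).c
    have h2 : om (k + 1) (par k).N = wstep (stage k).1.ω (par k).N (par k).c (par k).N := by
      unfold om
      rw [(good k).hω]
    rw [h2]
    exact wstep_N (inv k).wt (good k).hc

/-- the majorant controls translates -/
theorem kap_mul_exp {n k : ℕ} (hk : k ≤ n) (t τ : ℝ) :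
    kap (qq k) t * Real.exp (om n (t + τ)) ≤ Real.exp (|τ| / 2) * wk (qq k) t := by
  rcases le_or_gt t (qq k).N with h | h
  · rw [wk, kap_zero h, zero_mul, zero_mul, mul_zero]
  · have h1 : om n (t + τ) ≤ om k (t + τ) := om_anti _ hk
    have h2 : om k (t + τ) ≤ om k (qq k).N + om k (t - (qq k).N + τ) := by
      have := (inv k).wt.sub (qq k).N (t - (qq k).N + τ)
      have e : (qq k).N + (t - (qq k).N + τ) = t + τ := by ring
      rw [e] at this
      exact this
    have h3 : om k (t - (qq k).N + τ) ≤ om k (t - (qq k).N) + om k τ := (inv k).wt.sub _ _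
    have h4 : om k (t - (qq k).N) ≤ |t - (qq k).N| / 2 := (inv k).wt.le _
    have h5 : om k τ ≤ |τ| / 2 := (inv k).wt.le _
    rw [abs_of_pos (by linarith)] at h4
    have h6 := om_N k
    have h7 : om n (t + τ) ≤ |τ| / 2 + ((qq k).c + (t - (qq k).N) / 2) := by linarith
    rw [wk]
    calc kap (qq k) t * Real.exp (om n (t + τ))
        ≤ kap (qq k) t * Real.exp (|τ| / 2 + ((qq k).c + (t - (qq k).N) / 2)) :=
          mul_le_mul_of_nonneg_left (Real.exp_le_exp.mpr h7) (kap_nonneg (qq_ok k) t)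
      _ = _ := by rw [Real.exp_add]; ring

theorem fp_mul_exp (n : ℕ) (t τ : ℝ) :
    fp n t * Real.exp (om n (t + τ)) ≤ Real.exp (|τ| / 2) * hh t := by
  calc fp n t * Real.exp (om n (t + τ))
      = ∑ k ∈ Finset.range (n + 1), kap (qq k) t * Real.exp (om n (t + τ)) := by
        rw [fp, Finset.sum_mul]
    _ ≤ ∑ k ∈ Finset.range (n + 1), Real.exp (|τ| / 2) * wk (qq k) t := by
        apply Finset.sum_le_sum
        intro k hk
        rw [Finset.mem_range] at hk
        exact kap_mul_exp (by omega) t τ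
    _ = Real.exp (|τ| / 2) * hp n t := by rw [hp, Finset.mul_sum]
    _ ≤ _ := mul_le_mul_of_nonneg_left (hp_le_hh n t) (Real.exp_pos _).le

/-- `f φ` is dominated by the majorant -/
theorem ff_mul_omega (t : ℝ) : ff t * Real.exp (omega t) ≤ hh t := by
  have h1 := fp_mul_exp ⌈t⌉₊ t 0
  rw [add_zero, abs_zero, zero_div, Real.exp_zero, one_mul] at h1
  refine le_trans ?_ h1
  exact mul_le_mul_of_nonneg_left (Real.exp_le_exp.mpr (omega_le _ t)) (fp_nonneg _ t)

/-- transforms of the partial sums -/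
theorem fp_integral (n : ℕ) {w : ℂ} (hw : -1 < w.re) :
    IntegrableOn (fun t : ℝ => (fp n t : ℂ) * Complex.exp (-(w * t))) (Ioi 0) ∧
    ∫ t in Ioi (0 : ℝ), (fp n t : ℂ) * Complex.exp (-(w * t)) = (stage n).1.F w := by
  have e : (fun t : ℝ => (fp n t : ℂ) * Complex.exp (-(w * t))) =
      fun t : ℝ => ∑ k ∈ Finset.range (n + 1), (kap (qq k) t : ℂ) * Complex.exp (-(w * t)) := by
    funext t
    rw [fp, Complex.ofReal_sum, Finset.sum_mul]
  have h1 : ∀ k ∈ Finset.range (n + 1), IntegrableOn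
      (fun t : ℝ => (kap (qq k) t : ℂ) * Complex.exp (-(w * t))) (Ioi 0) := fun k _ =>
    (kap_integral (qq_ok k) hw).1
  constructor
  · rw [e]
    exact integrable_finsetSum _ h1
  · rw [e, integral_finsetSum _ h1]
    have h2 : ∀ k ∈ Finset.range (n + 1),
        ∫ t in Ioi (0 : ℝ), (kap (qq k) t : ℂ) * Complex.exp (-(w * t)) =
        (qq k).b * Complex.exp (-((qq k).N * w)) / (1 + (qq k).α * w) := fun k _ =>
      (kap_integral (qq_ok k) hw).2
    rw [Finset.sum_congr rfl h2]
    clear e h1 h2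
    induction n with
    | zero =>
      show _ = (D0).F w
      simp [qq, D0]
    | succ n ih =>
      rw [Finset.sum_range_succ, ih, (good n).hF]
      rfl

end Pool.Agent.Helper99.RT
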