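import Pool.Agent.Helper99.RT.Step

/-!
# The infinite construction
-/

namespace Pool.Agent.Helper99.RT

open Set Filter Topology

/-- the initial stage -/
noncomputable def D0 : Data where
  ω := fun t => |t| / 2
  F := fun z => 1 / (1 + z)
  T := {65 * Complex.I}
  τ := fun _ => 1
  ζ := fun x => x
  ρ := 1 / 2
  σ := 1 / 2
  X := 64

theorem inv0_im {z : ℂ} (hz : 0 < z.im) : ‖(1 : ℂ) / (1 + z)‖ ≤ 1 / z.im := by
  rw [norm_div, norm_one]
  have h1 : z.im ≤ ‖1 + z‖ := by
    have h2 : (1 + z).im = z.im := by simp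
    rw [← h2]
    exact (le_abs_self _).trans (Complex.abs_im_le_norm _)
  gcongr

theorem inv0 : Inv 0 D0 := by
  have hs : sz 0 = 1 / 16 := by unfold sz; norm_num
  refine ⟨wt_zero, ?_, ?_, ?_, ?_, ?_, ?_, ?_, ?_, ?_, ?_⟩
  · show (0 : ℝ) < 1 / 2; norm_num
  · exact le_refl _
  · show (0 : ℝ) ≤ 64; norm_num
  · intro x hx
    have hx' : x = 65 * Complex.I := by simpa [D0] using hx
    show |x.re| < 1 / 2 ∧ (64 : ℝ) < x.im
    rw [hx']
    constructor
    · simp
    · simp; norm_num
  · show DifferentiableOn ℂ (fun z : ℂ => 1 / (1 + z)) {z | -1 < z.re}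
    apply DifferentiableOn.div
    · fun_prop
    · fun_prop
    · intro z hz h0
      have := congrArg Complex.re h0
      simp only [Complex.add_re, Complex.one_re, Complex.zero_re] at this
      have hz' : -1 < z.re := hz
      linarith
  · intro z _ hz2
    have hz2' : (64 : ℝ) < z.im := hz2
    show ‖(1 : ℂ) / (1 + z)‖ ≤ sz 0 / 4
    refine (inv0_im (by linarith)).trans ?_
    rw [hs, div_le_iff₀ (by linarith)]
    linarith
  · intro ε hε
    refine ⟨1 / ε, ?_⟩
    intro z _ hz
    show ‖(1 : ℂ) / (1 + z)‖ ≤ ε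
    have h0 : 0 < z.im := lt_trans (by positivity) hz
    refine (inv0_im h0).trans ?_
    rw [div_le_iff₀ h0]
    rw [div_lt_iff₀ hε] at hz
    linarith
  · intro z _
    show (1 / 2 + (1 / 2) ^ (0 + 1)) / ‖1 + z‖ ≤ ‖(1 : ℂ) / (1 + z)‖
    rw [norm_div, norm_one]
    norm_num
  · show ∑ x ∈ ({65 * Complex.I} : Finset ℂ), ‖(1 : ℂ)‖ * ‖(1 : ℂ) / (1 + x)‖ ≤ sz 0 / 2
    rw [Finset.sum_singleton, norm_one, one_mul, hs]
    have h2 : ((65 : ℂ) * Complex.I).im = 65 := by simp
    refine (inv0_im (by rw [h2]; norm_num)).trans ?_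
    rw [h2]
    norm_num
  · intro t
    show ‖∑ x ∈ ({65 * Complex.I} : Finset ℂ), (1 : ℂ) * Complex.exp (-(x * t))‖ ≤
      (2 - (1 / 2) ^ 0) * Real.exp (|t| / 2)
    rw [Finset.sum_singleton, one_mul, Complex.norm_exp]
    have : (-((65 : ℂ) * Complex.I * t)).re = 0 := by simp
    rw [this, Real.exp_zero, pow_zero]
    have h1 : (1 : ℝ) ≤ Real.exp (|t| / 2) := Real.one_le_exp (by positivity)
    linarith

/-- the sequence of stages -/
noncomputable def stage : (k : ℕ) → {D : Data // Inv k D}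
  | 0 => ⟨D0, inv0⟩
  | k + 1 => ⟨(exists_step (stage k).2).choose_spec.choose,
      (exists_step (stage k).2).choose_spec.choose_spec.2⟩

/-- the parameters -/
noncomputable def par (k : ℕ) : Par := (exists_step (stage k).2).choose

theorem good (k : ℕ) : Good k (stage k).1 (par k) (stage (k + 1)).1 :=
  (exists_step (stage k).2).choose_spec.choose_spec.1

theorem inv (k : ℕ) : Inv k (stage k).1 := (stage k).2

noncomputable def om (k : ℕ) : ℝ → ℝ := (stage k).1.ω

noncomputable def gg (k : ℕ) : ℝ → ℂ := (stage k).1.g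

theorem om_succ_le (k : ℕ) (t : ℝ) : om (k + 1) t ≤ om k t := by
  unfold om
  rw [(good k).hω]
  exact wstep_le_self (inv k).wt (good k).hc t

theorem om_anti (t : ℝ) : Antitone fun k => om k t :=
  antitone_nat_of_succ_le fun k => om_succ_le k t

theorem om_nonneg (k : ℕ) (t : ℝ) : 0 ≤ om k t := (inv k).wt.nonneg t

/-- the final exponent -/
noncomputable def omega (t : ℝ) : ℝ := ⨅ k, om k t

theorem omega_bdd (t : ℝ) : BddBelow (range fun k => om k t) :=
  ⟨0, by rintro _ ⟨k, rfl⟩; exact om_nonneg k t⟩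

theorem omega_le (k : ℕ) (t : ℝ) : omega t ≤ om k t := ciInf_le (omega_bdd t) k

theorem omega_nonneg (t : ℝ) : 0 ≤ omega t := le_ciInf fun k => om_nonneg k t

theorem om_tendsto (t : ℝ) : Tendsto (fun k => om k t) atTop (𝓝 (omega t)) :=
  tendsto_atTop_ciInf (om_anti t) (omega_bdd t)

theorem omega_sub (s t : ℝ) : omega (s + t) ≤ omega s + omega t := by
  apply ge_of_tendsto ((om_tendsto s).add (om_tendsto t))
  filter_upwards with k
  exact (omega_le k _).trans ((inv k).wt.sub s t)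

theorem omega_le_half (t : ℝ) : omega t ≤ |t| / 2 := (omega_le 0 t).trans ((inv 0).wt.le t)

theorem omega_lip (s t : ℝ) : |omega s - omega t| ≤ |s - t| / 2 := by
  have h1 : ∀ s t, omega s ≤ omega t + |s - t| / 2 := by
    intro s t
    have h2 := omega_sub t (s - t)
    rw [add_sub_cancel] at h2
    linarith [omega_le_half (s - t)]
  rw [abs_le]
  have h2 := h1 s t
  have h3 := h1 t s
  rw [abs_sub_comm] at h3
  constructor <;> linarith

theorem omega_continuous : Continuous omega := by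
  rw [Metric.continuous_iff]
  intro b ε hε
  refine ⟨ε, hε, ?_⟩
  intro a ha
  rw [Real.dist_eq] at ha ⊢
  have := omega_lip a b
  linarith [abs_nonneg (a - b)]

theorem omega_upper (k : ℕ) : ∃ K : ℝ, ∀ t, omega t ≤ 1 / ((k : ℝ) + 1) * |t| + K := by
  have hk : (0 : ℝ) ≤ k := Nat.cast_nonneg k
  have hN0 : 0 < (par k).N := by
    have := (good k).hN
    linarith
  refine ⟨(par k).c + (par k).N, ?_⟩
  intro t
  refine (omega_le (k + 1) t).trans ?_
  have h1 := wstep_upper (inv k).wt hN0 (good k).hc t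
  have h2 : om (k + 1) t = wstep (stage k).1.ω (par k).N (par k).c t := by
    unfold om
    rw [(good k).hω]
  rw [h2]
  refine h1.trans ?_
  have h3 := mul_le_mul_of_nonneg_right (good k).hcN (abs_nonneg t)
  linarith

theorem omega_div_small (ε : ℝ) (hε : 0 < ε) : ∃ K : ℝ, 0 < K ∧ ∀ t : ℝ, K ≤ |t| →
    |omega t / t| ≤ ε := by
  obtain ⟨k, hk⟩ := exists_nat_one_div_lt (half_pos hε)
  obtain ⟨K, hK⟩ := omega_upper k
  have hK0 : 0 ≤ K := by
    have := hK 0
    rw [abs_zero, mul_zero, zero_add] at this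
    exact (omega_nonneg 0).trans this
  refine ⟨2 * K / ε + 1, by positivity, ?_⟩
  intro t ht
  have ht0 : 0 < |t| := lt_of_lt_of_le (by positivity) ht
  rw [abs_div, abs_of_nonneg (omega_nonneg t), div_le_iff₀ ht0]
  have h1 := hK t
  have h2 : 1 / ((k : ℝ) + 1) * |t| ≤ ε / 2 * |t| := by gcongr
  have h3 : K ≤ ε / 2 * |t| := by
    have h4 : 2 * K / ε ≤ |t| := by linarith
    rw [div_le_iff₀ hε] at h4
    linarith
  linarith

end Pool.Agent.Helper99.RT
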