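import Mathlib

/-!
# Subadditive exponents and the word-length step
-/

namespace Pool.Agent.Helper99.RT

open Set Filter Topology

/-- subadditive exponent between `ρ |t|` and `|t| / 2` -/
structure Wt (ω : ℝ → ℝ) (ρ : ℝ) : Prop where
  rho_pos : 0 < ρ
  sub : ∀ s t, ω (s + t) ≤ ω s + ω t
  le : ∀ t, ω t ≤ |t| / 2
  ge : ∀ t, ρ * |t| ≤ ω t

/-- the exponent in which multiples of `N` have cost `c` -/
noncomputable def wstep (ω : ℝ → ℝ) (N c : ℝ) (t : ℝ) : ℝ :=
  ⨅ m : ℤ, (c * |(m : ℝ)| + ω (t - m * N))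

theorem Wt.nonneg {ω : ℝ → ℝ} {ρ : ℝ} (h : Wt ω ρ) (t : ℝ) : 0 ≤ ω t :=
  (mul_nonneg h.rho_pos.le (abs_nonneg t)).trans (h.ge t)

theorem Wt.rho_le {ω : ℝ → ℝ} {ρ : ℝ} (h : Wt ω ρ) : ρ ≤ 1 / 2 := by
  have h1 := (h.ge 1).trans (h.le 1)
  simp only [abs_one, mul_one] at h1
  exact h1

theorem Wt.zero {ω : ℝ → ℝ} {ρ : ℝ} (h : Wt ω ρ) : ω 0 = 0 := by
  have h1 := h.le 0
  simp only [abs_zero, zero_div] at h1
  exact le_antisymm h1 (h.nonneg 0)

theorem Wt.lip {ω : ℝ → ℝ} {ρ : ℝ} (h : Wt ω ρ) (s t : ℝ) : |ω s - ω t| ≤ |s - t| / 2 := by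
  have h1 : ω s ≤ ω t + |s - t| / 2 := by
    have h2 := h.sub t (s - t)
    rw [add_sub_cancel] at h2
    linarith [h.le (s - t)]
  have h3 : ω t ≤ ω s + |s - t| / 2 := by
    have h2 := h.sub s (t - s)
    rw [add_sub_cancel] at h2
    have h4 := h.le (t - s)
    rw [abs_sub_comm] at h4
    linarith
  rw [abs_le]
  constructor <;> linarith

theorem wstep_bdd {ω : ℝ → ℝ} {ρ : ℝ} (h : Wt ω ρ) {N c : ℝ} (hc : 0 < c) (t : ℝ) :
    BddBelow (range fun m : ℤ => (c * |(m : ℝ)| + ω (t - m * N))) := by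
  refine ⟨0, ?_⟩
  rintro _ ⟨m, rfl⟩
  have := h.nonneg (t - m * N)
  have := abs_nonneg (m : ℝ)
  positivity

theorem wstep_le {ω : ℝ → ℝ} {ρ : ℝ} (h : Wt ω ρ) {N c : ℝ} (hc : 0 < c) (t : ℝ) (m : ℤ) :
    wstep ω N c t ≤ c * |(m : ℝ)| + ω (t - m * N) :=
  ciInf_le (wstep_bdd h hc t) m

theorem wstep_le_self {ω : ℝ → ℝ} {ρ : ℝ} (h : Wt ω ρ) {N c : ℝ} (hc : 0 < c) (t : ℝ) :
    wstep ω N c t ≤ ω t := by
  simpa using wstep_le (N := N) h hc t 0

theorem wstep_N {ω : ℝ → ℝ} {ρ : ℝ} (h : Wt ω ρ) {N c : ℝ} (hc : 0 < c) :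
    wstep ω N c N ≤ c := by
  have := wstep_le (N := N) h hc N 1
  simpa [h.zero] using this

theorem Wt.step {ω : ℝ → ℝ} {ρ : ℝ} (h : Wt ω ρ) {N c : ℝ} (hN : 0 < N) (hc : 0 < c) :
    Wt (wstep ω N c) (min ρ (c / N)) where
  rho_pos := lt_min h.rho_pos (div_pos hc hN)
  sub := by
    intro s t
    have key : ∀ m n : ℤ, wstep ω N c (s + t) ≤
        (c * |(m : ℝ)| + ω (s - m * N)) + (c * |(n : ℝ)| + ω (t - n * N)) := by
      intro m n
      have h1 := wstep_le (N := N) h hc (s + t) (m + n)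
      have h2 := h.sub (s - m * N) (t - n * N)
      have e : s + t - ((m + n : ℤ) : ℝ) * N = (s - m * N) + (t - n * N) := by push_cast; ring
      rw [e] at h1
      have h3 : |((m + n : ℤ) : ℝ)| ≤ |(m : ℝ)| + |(n : ℝ)| := by
        push_cast
        exact abs_add_le _ _
      have h4 := mul_le_mul_of_nonneg_left h3 hc.le
      linarith
    have h1 : ∀ n : ℤ, wstep ω N c (s + t) - (c * |(n : ℝ)| + ω (t - n * N)) ≤
        wstep ω N c s := by
      intro n
      apply le_ciInf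
      intro m
      linarith [key m n]
    have h2 : wstep ω N c (s + t) - wstep ω N c s ≤ wstep ω N c t := by
      apply le_ciInf
      intro n
      linarith [h1 n]
    linarith
  le := fun t => (wstep_le_self h hc t).trans (h.le t)
  ge := by
    intro t
    apply le_ciInf
    intro m
    have h1 := h.ge (t - m * N)
    have h2 : |t| ≤ |(m : ℝ)| * N + |t - m * N| := by
      have := abs_add_le ((m : ℝ) * N) (t - m * N)
      rw [add_sub_cancel, abs_mul, abs_of_pos hN] at this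
      exact this
    have h3 : 0 < min ρ (c / N) := lt_min h.rho_pos (div_pos hc hN)
    have h4 : min ρ (c / N) * (|(m : ℝ)| * N) ≤ c * |(m : ℝ)| := by
      have : min ρ (c / N) ≤ c / N := min_le_right _ _
      calc min ρ (c / N) * (|(m : ℝ)| * N) ≤ (c / N) * (|(m : ℝ)| * N) := by
            apply mul_le_mul_of_nonneg_right this
            positivity
        _ = c * |(m : ℝ)| := by field_simp
    have h5 : min ρ (c / N) * |t - m * N| ≤ ρ * |t - m * N| :=
      mul_le_mul_of_nonneg_right (min_le_left _ _) (abs_nonneg _)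
    calc min ρ (c / N) * |t| ≤ min ρ (c / N) * (|(m : ℝ)| * N + |t - m * N|) :=
          mul_le_mul_of_nonneg_left h2 h3.le
      _ ≤ c * |(m : ℝ)| + ω (t - m * N) := by
          rw [mul_add]
          linarith

/-- upper bound used for `ω(t)/t → 0` -/
theorem wstep_upper {ω : ℝ → ℝ} {ρ : ℝ} (h : Wt ω ρ) {N c : ℝ} (hN : 0 < N) (hc : 0 < c)
    (t : ℝ) : wstep ω N c t ≤ c / N * |t| + (c + N) := by
  set m : ℤ := ⌊t / N⌋ with hm
  have h1 := wstep_le (N := N) h hc t m
  have h2 : (m : ℝ) ≤ t / N := Int.floor_le _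
  have h3 : t / N < m + 1 := Int.lt_floor_add_one _
  have h4 : 0 ≤ t - m * N := by
    rw [le_div_iff₀ hN] at h2
    linarith
  have h5 : t - m * N ≤ N := by
    rw [div_lt_iff₀ hN] at h3
    linarith
  have h6 : ω (t - m * N) ≤ N := by
    have := h.le (t - m * N)
    rw [abs_of_nonneg h4] at this
    linarith
  have h7 : |(m : ℝ)| ≤ |t| / N + 1 := by
    have e : |t / N| = |t| / N := by rw [abs_div, abs_of_pos hN]
    rw [abs_le]
    constructor
    · have := neg_abs_le (t / N)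
      rw [e] at this
      linarith
    · have := le_abs_self (t / N)
      rw [e] at this
      linarith
  have h8 := mul_le_mul_of_nonneg_left h7 hc.le
  have e2 : c * (|t| / N + 1) = c / N * |t| + c := by ring
  linarith

/-- the starting exponent -/
theorem wt_zero : Wt (fun t => |t| / 2) (1 / 2) where
  rho_pos := by norm_num
  sub := by
    intro s t
    have := abs_add_le s t
    linarith
  le := fun t => le_refl _
  ge := fun t => le_of_eq (by ring)

end Pool.Agent.Helper99.RT
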