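import Pool.Agent.Helper99.RT.Approx
import Pool.Agent.Helper99.RT.Weight

/-!
# Stages of the construction, and the choice of new frequencies
-/

namespace Pool.Agent.Helper99.RT

open Set Filter Topology

/-- data of one stage -/
structure Data where
  ω : ℝ → ℝ
  F : ℂ → ℂ
  T : Finset ℂ
  τ : ℂ → ℂ
  ζ : ℂ → ℂ
  ρ : ℝ
  σ : ℝ
  X : ℝ

/-- exponential sum of a stage -/
noncomputable def Data.g (D : Data) (t : ℝ) : ℂ := ∑ x ∈ D.T, D.τ x * Complex.exp (-(D.ζ x * t))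

/-- size of the `k`-th perturbation -/
noncomputable def sz (k : ℕ) : ℝ := (1 / 2) ^ (k + 4)

theorem sz_pos (k : ℕ) : 0 < sz k := by unfold sz; positivity

theorem sz_succ (k : ℕ) : sz (k + 1) = sz k / 2 := by
  unfold sz
  ring

/-- invariants of a stage -/
structure Inv (k : ℕ) (D : Data) : Prop where
  wt : Wt D.ω D.ρ
  σ_pos : 0 < D.σ
  σ_le : D.σ ≤ D.ρ
  X_nonneg : 0 ≤ D.X
  node : ∀ x ∈ D.T, |(D.ζ x).re| < D.σ ∧ D.X < (D.ζ x).im
  Fd : DifferentiableOn ℂ D.F {z | -1 < z.re}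
  Fsmall : ∀ z : ℂ, |z.re| < D.σ → D.X < z.im → ‖D.F z‖ ≤ sz k / 4
  Flim : ∀ ε > 0, ∃ Y : ℝ, ∀ z : ℂ, |z.re| < D.σ → Y < z.im → ‖D.F z‖ ≤ ε
  Flow : ∀ z : ℂ, 0 ≤ z.re → (1 / 2 + (1 / 2) ^ (k + 1)) / ‖1 + z‖ ≤ ‖D.F z‖
  ann : ∑ x ∈ D.T, ‖D.τ x‖ * ‖D.F (D.ζ x)‖ ≤ sz k / 2
  bd : ∀ t : ℝ, ‖D.g t‖ ≤ (2 - (1 / 2) ^ k) * Real.exp (D.ω t)

/-- parameters of a step -/
structure Par where
  N : ℝ
  b : ℝ
  c : ℝ
  α : ℝ

/-- relation between consecutive stages -/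
structure Good (k : ℕ) (D : Data) (p : Par) (D' : Data) : Prop where
  hN : (k : ℝ) + 1 ≤ p.N
  hb : 0 < p.b
  hc : 0 < p.c
  hα : 0 < p.α
  hα1 : p.α ≤ 1
  hs : p.b * Real.exp p.c = sz k
  hba : p.b / p.α ≤ (1 / 2) ^ (k + 2)
  hcN : p.c / p.N ≤ 1 / ((k : ℝ) + 1)
  hω : D'.ω = wstep D.ω p.N p.c
  hF : ∀ z, D'.F z = D.F z + p.b * Complex.exp (-(p.N * z)) / (1 + p.α * z)
  hg : ∀ r : ℝ, ‖D'.g r - D.g r‖ ≤ (1 / 2) ^ (k + 4) * Real.exp (D.ω r)

/-! ### elementary inequalities -/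

theorem norm_exp_le {z : ℂ} {σ : ℝ} (hz : |z.re| ≤ σ) (r : ℝ) :
    ‖Complex.exp (-(z * r))‖ ≤ Real.exp (σ * |r|) := by
  rw [Complex.norm_exp]
  apply Real.exp_le_exp.mpr
  have h1 : (-(z * (r : ℂ))).re = -(z.re * r) := by simp
  rw [h1]
  calc -(z.re * r) ≤ |-(z.re * r)| := le_abs_self _
    _ = |z.re| * |r| := by rw [abs_neg, abs_mul]
    _ ≤ σ * |r| := mul_le_mul_of_nonneg_right hz (abs_nonneg r)

theorem norm_exp_le_omega {ω : ℝ → ℝ} {ρ : ℝ} (h : Wt ω ρ) {z : ℂ} {σ : ℝ} (hz : |z.re| ≤ σ)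
    (hσ : σ ≤ ρ) (r : ℝ) : ‖Complex.exp (-(z * r))‖ ≤ Real.exp (ω r) :=
  (norm_exp_le hz r).trans (Real.exp_le_exp.mpr
    ((mul_le_mul_of_nonneg_right hσ (abs_nonneg r)).trans (h.ge r)))

theorem kern_lower {α : ℝ} (h0 : 0 < α) (h1 : α ≤ 1) {z : ℂ} (hz : -1 < z.re) :
    α * ‖1 + z‖ ≤ ‖1 + (α : ℂ) * z‖ := by
  have h2 : α * ‖1 + z‖ = ‖(α : ℂ) * (1 + z)‖ := by
    rw [norm_mul, Complex.norm_real, Real.norm_of_nonneg h0.le]
  rw [h2]
  apply (sq_le_sq₀ (norm_nonneg _) (norm_nonneg _)).mp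
  rw [Complex.sq_norm, Complex.sq_norm, Complex.normSq_apply, Complex.normSq_apply]
  simp only [Complex.mul_re, Complex.mul_im, Complex.add_re, Complex.add_im, Complex.one_re,
    Complex.one_im, Complex.ofReal_re, Complex.ofReal_im, zero_mul, sub_zero, add_zero, zero_add]
  have h3 : 0 ≤ α * (1 + z.re) := mul_nonneg h0.le (by linarith)
  have h4 : α * (1 + z.re) ≤ 1 + α * z.re := by linarith
  nlinarith [mul_self_le_mul_self h3 h4]

theorem kern_half {α : ℝ} (_h0 : 0 < α) (h1 : α ≤ 1) {z : ℂ} (hz : |z.re| ≤ 1 / 2) :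
    1 / 2 ≤ ‖1 + (α : ℂ) * z‖ := by
  have h2 : 1 / 2 ≤ (1 + (α : ℂ) * z).re := by
    simp only [Complex.mul_re, Complex.add_re, Complex.one_re, Complex.ofReal_re,
      Complex.ofReal_im, zero_mul, sub_zero]
    have := (abs_le.mp hz).1
    nlinarith
  exact h2.trans (Complex.re_le_norm _)

theorem kern_ne {α : ℝ} (h0 : 0 < α) (h1 : α ≤ 1) {z : ℂ} (hz : -1 < z.re) :
    1 + (α : ℂ) * z ≠ 0 := by
  intro h
  have h2 := congrArg Complex.re h
  simp only [Complex.mul_re, Complex.add_re, Complex.one_re, Complex.ofReal_re,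
    Complex.ofReal_im, zero_mul, sub_zero, Complex.zero_re] at h2
  nlinarith

theorem kern_im {α : ℝ} (h0 : 0 < α) (z : ℂ) : α * z.im ≤ ‖1 + (α : ℂ) * z‖ := by
  have h2 : α * z.im = (1 + (α : ℂ) * z).im := by simp
  rw [h2]
  exact (le_abs_self _).trans (Complex.abs_im_le_norm _)

/-- the multiplier -/
noncomputable def mult (F : ℂ → ℂ) (α s : ℝ) (z : ℂ) : ℂ := F z * (1 + α * z) / s

/-- choice of the new window of frequencies -/
theorem exists_window {k : ℕ} {D : Data} (h : Inv k D) :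
    ∃ (a α : ℝ) (T' : Finset ℂ) (τ' : ℂ → ℂ), D.X < a ∧ 0 < α ∧ α ≤ 1 ∧
      (∀ z : ℂ, |z.re| < D.σ → a ≤ z.im → ‖D.F z‖ ≤ sz k / 1000) ∧
      (∀ x ∈ T', x.re = 0 ∧ a < x.im) ∧
      (∀ x ∈ T', ‖1 + (α : ℂ) * x‖ ≤ 2) ∧
      (∀ x ∈ D.T, ‖1 + (α : ℂ) * D.ζ x‖ ≤ 2) ∧
      ∀ (p : ℕ) (r : ℝ),
        ‖∑ x ∈ D.T, D.τ x * (mult D.F α (sz k) (D.ζ x) ^ p * Complex.exp (-(D.ζ x * r))) -
          ∑ x ∈ T', τ' x * (mult D.F α (sz k) x ^ p * Complex.exp (-(x * r)))‖ ≤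
        (1 / 2) ^ (k + 5) * Real.exp (D.ω r) := by
  obtain ⟨Y, hY⟩ := h.Flim (sz k / 1000) (by have := sz_pos k; positivity)
  obtain ⟨B, hB⟩ : ∃ B : ℝ, ∀ x ∈ D.T, (D.ζ x).im ≤ B := by
    obtain ⟨B, hB⟩ := (D.T.finite_toSet.image fun x => (D.ζ x).im).bddAbove
    exact ⟨B, fun x hx => hB ⟨x, hx, rfl⟩⟩
  have hX0 := h.X_nonneg
  have hσ : D.σ ≤ 1 / 2 := h.σ_le.trans h.wt.rho_le
  set a : ℝ := max (max Y D.X) B + 1 with ha
  have haY : Y < a := by
    have := (le_max_left Y D.X).trans (le_max_left (max Y D.X) B)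
    linarith
  have haX : D.X < a := by
    have := (le_max_right Y D.X).trans (le_max_left (max Y D.X) B)
    linarith
  have haB : B < a := by
    have := le_max_right (max Y D.X) B
    linarith
  have ha0 : 0 < a := lt_of_le_of_lt hX0 haX
  set α : ℝ := 1 / (a + 4) with hα
  have hα0 : 0 < α := by positivity
  have hα1 : α ≤ 1 := by
    rw [hα, div_le_one (by positivity)]
    linarith
  have hkern : ∀ z : ℂ, |z.re| < D.σ → 0 ≤ z.im → z.im < a + 2 → ‖1 + (α : ℂ) * z‖ ≤ 2 := by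
    intro z hz h0 h1
    have h2 : ‖z‖ ≤ a + 4 := by
      refine (Complex.norm_le_abs_re_add_abs_im z).trans ?_
      rw [abs_of_nonneg h0]
      linarith
    calc ‖1 + (α : ℂ) * z‖ ≤ ‖(1 : ℂ)‖ + ‖(α : ℂ) * z‖ := norm_add_le _ _
      _ = 1 + α * ‖z‖ := by rw [norm_one, norm_mul, Complex.norm_real, Real.norm_of_nonneg hα0.le]
      _ ≤ 1 + α * (a + 4) := by gcongr
      _ = 2 := by rw [hα]; field_simp; norm_num
  -- the region
  set R : Set ℂ := Ioo (-D.σ) D.σ ×ℂ Ioo D.X (a + 2) with hR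
  have hRo : IsOpen R := isOpen_Ioo.reProdIm isOpen_Ioo
  have hmemR : ∀ z : ℂ, z ∈ R ↔ |z.re| < D.σ ∧ D.X < z.im ∧ z.im < a + 2 := by
    intro z
    rw [hR, Complex.mem_reProdIm, mem_Ioo, mem_Ioo, abs_lt]
  have hRpre : IsPreconnected R := by
    apply Convex.isPreconnected
    have h1 : R = Complex.reCLM ⁻¹' Ioo (-D.σ) D.σ ∩ Complex.imCLM ⁻¹' Ioo D.X (a + 2) := rfl
    rw [h1]
    exact ((convex_Ioo _ _).linear_preimage Complex.reCLM.toLinearMap).inter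
      ((convex_Ioo _ _).linear_preimage Complex.imCLM.toLinearMap)
  set hfam : ℕ × ℝ → ℂ → ℂ := fun i z =>
    mult D.F α (sz k) z ^ i.1 * Complex.exp (-(z * i.2)) / Real.exp (D.ω i.2) with hfamdef
  have hsz := sz_pos k
  have hFdR : DifferentiableOn ℂ D.F R := by
    apply h.Fd.mono
    intro z hz
    rw [hmemR] at hz
    have := (abs_lt.mp hz.1).1
    show -1 < z.re
    linarith
  have hd : ∀ i, DifferentiableOn ℂ (hfam i) R := by
    intro i
    have h1 : DifferentiableOn ℂ (mult D.F α (sz k)) R := by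
      unfold mult
      apply DifferentiableOn.div_const
      apply hFdR.mul
      fun_prop
    apply DifferentiableOn.div_const
    apply (h1.pow i.1).mul
    fun_prop
  have hM : ∀ z ∈ R, ‖mult D.F α (sz k) z‖ ≤ 1 := by
    intro z hz
    rw [hmemR] at hz
    have h1 := h.Fsmall z hz.1 hz.2.1
    have h2 := hkern z hz.1 (hX0.trans hz.2.1.le) hz.2.2
    rw [mult, norm_div, norm_mul, Complex.norm_real, Real.norm_of_nonneg hsz.le,
      div_le_one hsz]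
    calc ‖D.F z‖ * ‖1 + (α : ℂ) * z‖ ≤ (sz k / 4) * 2 := by gcongr
      _ ≤ sz k := by linarith
  have hb : ∀ i, ∀ z ∈ R, ‖hfam i z‖ ≤ 1 := by
    intro i z hz
    rw [hfamdef]
    simp only
    have h1 : ‖mult D.F α (sz k) z ^ i.1‖ ≤ 1 := by
      rw [norm_pow]
      exact pow_le_one₀ (norm_nonneg _) (hM z hz)
    rw [hmemR] at hz
    have h2 := norm_exp_le_omega h.wt hz.1.le h.σ_le i.2
    rw [norm_div, norm_mul, Complex.norm_real, Real.norm_of_nonneg (Real.exp_pos _).le,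
      div_le_one (Real.exp_pos _)]
    calc ‖mult D.F α (sz k) z ^ i.1‖ * ‖Complex.exp (-(z * i.2))‖
        ≤ 1 * Real.exp (D.ω i.2) := by gcongr
      _ = _ := one_mul _
  set S : Set ℂ := {z | z.re = 0 ∧ a < z.im ∧ z.im < a + 1} with hS
  have hSR : S ⊆ R := by
    intro z hz
    rw [hmemR]
    refine ⟨?_, haX.trans hz.2.1, by linarith [hz.2.2]⟩
    rw [hz.1, abs_zero]
    exact h.σ_pos
  set z₀ : ℂ := ((a + 1 / 2 : ℝ) : ℂ) * Complex.I with hz₀def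
  have hz₀ : z₀ ∈ S := by
    refine ⟨?_, ?_, ?_⟩
    · simp [hz₀def]
    · rw [hz₀def, Complex.mul_I_im, Complex.ofReal_re]
      linarith
    · rw [hz₀def, Complex.mul_I_im, Complex.ofReal_re]
      linarith
  have hacc : ∃ᶠ z in 𝓝[≠] z₀, z ∈ S := by
    have ht : Tendsto (fun t : ℝ => (t : ℂ) * Complex.I) (𝓝[≠] (a + 1 / 2)) (𝓝[≠] z₀) := by
      apply tendsto_nhdsWithin_of_tendsto_nhds_of_eventually_within
      · apply Tendsto.mono_left _ nhdsWithin_le_nhds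
        have : Continuous fun t : ℝ => (t : ℂ) * Complex.I := by fun_prop
        exact this.tendsto _
      · filter_upwards [self_mem_nhdsWithin] with t ht heq
        apply ht
        have h1 : (t : ℂ) * Complex.I = ((a + 1 / 2 : ℝ) : ℂ) * Complex.I := heq
        have h2 := mul_right_cancel₀ Complex.I_ne_zero h1
        exact Complex.ofReal_injective h2
    apply ht.frequently
    apply Eventually.frequently
    have : Ioo a (a + 1) ∈ 𝓝[≠] (a + 1 / 2) := by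
      apply mem_nhdsWithin_of_mem_nhds
      apply Ioo_mem_nhds <;> linarith
    filter_upwards [this] with t ht
    refine ⟨by simp, ?_, ?_⟩
    · rw [Complex.mul_I_im, Complex.ofReal_re]; exact ht.1
    · rw [Complex.mul_I_im, Complex.ofReal_re]; exact ht.2
  have hζR : ∀ x ∈ D.T, D.ζ x ∈ R := by
    intro x hx
    rw [hmemR]
    exact ⟨(h.node x hx).1, (h.node x hx).2, by linarith [hB x hx]⟩
  obtain ⟨T', τ', hT', happ⟩ := approx_eval hRo hRpre hd hb hSR (hSR hz₀) hacc D.T D.τ D.ζ hζR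
    (ε := (1 / 2) ^ (k + 5)) (by positivity)
  refine ⟨a, α, T', τ', haX, hα0, hα1, ?_, ?_, ?_, ?_, ?_⟩
  · intro z hz1 hz2
    exact hY z hz1 (lt_of_lt_of_le haY hz2)
  · intro x hx
    exact ⟨(hT' x hx).1, (hT' x hx).2.1⟩
  · intro x hx
    have h1 := hSR (hT' x hx)
    rw [hmemR] at h1
    exact hkern x h1.1 (hX0.trans h1.2.1.le) h1.2.2
  · intro x hx
    have h1 := hζR x hx
    rw [hmemR] at h1
    exact hkern _ h1.1 (hX0.trans h1.2.1.le) h1.2.2
  · intro p r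
    have h1 := happ (p, r)
    have hE : (0 : ℝ) < Real.exp (D.ω r) := Real.exp_pos _
    have hE' : ((Real.exp (D.ω r) : ℝ) : ℂ) ≠ 0 := Complex.ofReal_ne_zero.mpr hE.ne'
    have h2 : ∑ x ∈ D.T, D.τ x * hfam (p, r) (D.ζ x) - ∑ x ∈ T', τ' x * hfam (p, r) x =
        (∑ x ∈ D.T, D.τ x * (mult D.F α (sz k) (D.ζ x) ^ p * Complex.exp (-(D.ζ x * r))) -
          ∑ x ∈ T', τ' x * (mult D.F α (sz k) x ^ p * Complex.exp (-(x * r)))) /
          (Real.exp (D.ω r) : ℝ) := by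
      rw [sub_div, Finset.sum_div, Finset.sum_div]
      congr 1
      · apply Finset.sum_congr rfl
        intro x _
        rw [hfamdef]
        simp only
        ring
      · apply Finset.sum_congr rfl
        intro x _
        rw [hfamdef]
        simp only
        ring
    rw [h2, norm_div, Complex.norm_real, Real.norm_of_nonneg hE.le, div_le_iff₀ hE] at h1
    exact h1

end Pool.Agent.Helper99.RT
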