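import Pool.Agent.Helper99.RT.Stage

/-!
# The step of the construction
-/

namespace Pool.Agent.Helper99.RT

open Set Filter Topology

theorem exp_diff {ρ δ : ℝ} (hρ : 0 < ρ) (hδ : δ ≤ ρ / 2) {x z : ℂ} (hx : x.re = 0)
    (hz : ‖z - x‖ ≤ δ) (r : ℝ) :
    ‖Complex.exp (-(z * r)) - Complex.exp (-(x * r))‖ ≤ δ * (2 / ρ) * Real.exp (ρ * |r|) := by
  have hδ0 : 0 ≤ δ := (norm_nonneg _).trans hz
  have h1 : Complex.exp (-(z * r)) - Complex.exp (-(x * r)) =
      Complex.exp (-(x * r)) * (Complex.exp (-((z - x) * r)) - 1) := by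
    rw [mul_sub, ← Complex.exp_add, mul_one]
    congr 2
    ring
  have h2 : ‖Complex.exp (-(x * r))‖ = 1 := by
    rw [Complex.norm_exp]
    have : (-(x * (r : ℂ))).re = 0 := by simp [hx]
    rw [this, Real.exp_zero]
  set w : ℂ := -((z - x) * r) with hw
  have hwn : ‖w‖ ≤ δ * |r| := by
    rw [hw, norm_neg, norm_mul, Complex.norm_real, Real.norm_eq_abs]
    exact mul_le_mul_of_nonneg_right hz (abs_nonneg r)
  have h3 : ‖Complex.exp w - 1‖ ≤ ‖w‖ * Real.exp ‖w‖ := by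
    have := Complex.norm_exp_sub_sum_le_norm_mul_exp w 1
    simpa using this
  rw [h1, norm_mul, h2, one_mul]
  have h4 : δ * |r| ≤ ρ / 2 * |r| := mul_le_mul_of_nonneg_right hδ (abs_nonneg r)
  have h5 : |r| ≤ (2 / ρ) * Real.exp (ρ / 2 * |r|) := by
    have h6 := Real.add_one_le_exp (ρ / 2 * |r|)
    have h7 : ρ / 2 * |r| ≤ Real.exp (ρ / 2 * |r|) := by linarith
    calc |r| = (2 / ρ) * (ρ / 2 * |r|) := by field_simp
      _ ≤ _ := mul_le_mul_of_nonneg_left h7 (by positivity)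
  calc ‖Complex.exp w - 1‖ ≤ ‖w‖ * Real.exp ‖w‖ := h3
    _ ≤ (δ * |r|) * Real.exp (ρ / 2 * |r|) := by
        gcongr
        exact hwn.trans h4
    _ ≤ (δ * ((2 / ρ) * Real.exp (ρ / 2 * |r|))) * Real.exp (ρ / 2 * |r|) := by gcongr
    _ = δ * (2 / ρ) * (Real.exp (ρ / 2 * |r|) * Real.exp (ρ / 2 * |r|)) := by ring
    _ = δ * (2 / ρ) * Real.exp (ρ * |r|) := by
        rw [← Real.exp_add]
        congr 2
        ring

/-- from all translates to the infimum -/
theorem le_exp_wstep {ω : ℝ → ℝ} {N c C A t : ℝ} (hC : 0 < C) (hA : 0 ≤ A)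
    (h : ∀ m : ℤ, A ≤ C * Real.exp (c * |(m : ℝ)| + ω (t - m * N))) :
    A ≤ C * Real.exp (wstep ω N c t) := by
  rcases hA.eq_or_lt with h0 | h0
  · rw [← h0]
    positivity
  · have h1 : Real.log (A / C) ≤ wstep ω N c t := by
      apply le_ciInf
      intro m
      rw [Real.log_le_iff_le_exp (by positivity), div_le_iff₀ hC, mul_comm]
      exact h m
    rw [Real.log_le_iff_le_exp (by positivity), div_le_iff₀ hC, mul_comm] at h1
    exact h1

/-- the next stage -/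
noncomputable def nextD (k : ℕ) (D : Data) (a α : ℝ) (T' : Finset ℂ) (τ' ζ' : ℂ → ℂ) (c N : ℝ) :
    Data where
  ω := wstep D.ω N c
  F := fun z => D.F z + (sz k * Real.exp (-c) : ℝ) * Complex.exp (-(N * z)) / (1 + α * z)
  T := T'
  τ := τ'
  ζ := ζ'
  ρ := min D.ρ (c / N)
  σ := (c - Real.log 32) / N
  X := a

theorem log32_pos : 0 < Real.log 32 := Real.log_pos (by norm_num)

section core

variable {k : ℕ} {D : Data} (h : Inv k D) {a α : ℝ} {T' : Finset ℂ} {τ' ζ' : ℂ → ℂ}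
  (hXa : D.X < a) (hα0 : 0 < α) (hα1 : α ≤ 1)
  (hFa : ∀ z : ℂ, |z.re| < D.σ → a ≤ z.im → ‖D.F z‖ ≤ sz k / 1000)
  (hT' : ∀ x ∈ T', x.re = 0 ∧ a < x.im)
  (hk' : ∀ x ∈ T', ‖1 + (α : ℂ) * x‖ ≤ 2)
  (hk : ∀ x ∈ D.T, ‖1 + (α : ℂ) * D.ζ x‖ ≤ 2)
  (happ : ∀ (p : ℕ) (r : ℝ),
        ‖∑ x ∈ D.T, D.τ x * (mult D.F α (sz k) (D.ζ x) ^ p * Complex.exp (-(D.ζ x * r))) -
          ∑ x ∈ T', τ' x * (mult D.F α (sz k) x ^ p * Complex.exp (-(x * r)))‖ ≤
        (1 / 2) ^ (k + 5) * Real.exp (D.ω r))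
  {c N : ℝ} (hc1 : ∀ x ∈ T', ∑ y ∈ T', ‖τ' y‖ + 33 ≤ Real.exp (2 * c) * ‖mult D.F α (sz k) x‖)
  (hc2 : Real.log 32 < c) (hc3 : sz k * Real.exp (-c) / α ≤ (1 / 2) ^ (k + 2))
  (hN : (k : ℝ) + 1 ≤ N)
  (hζ : ∀ x ∈ T', Complex.exp (-(N * ζ' x)) = -(Real.exp c : ℝ) * mult D.F α (sz k) x)
  {δ : ℝ} (hδ : ∀ x ∈ T', ‖ζ' x - x‖ ≤ δ) (hδρ : δ ≤ D.ρ / 2)
  (hδA : (∑ y ∈ T', ‖τ' y‖) * (δ * (2 / D.ρ)) ≤ (1 / 2) ^ (k + 5))
  (hσ : (c - Real.log 32) / N ≤ D.σ)
  (him : ∀ x ∈ T', a < (ζ' x).im)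
  (hann : ∑ x ∈ T', ‖τ' x‖ * ‖D.F (ζ' x) - sz k * mult D.F α (sz k) x / (1 + α * ζ' x)‖ ≤
    sz (k + 1) / 2)

include h hFa hT' hk' in
theorem mult_small : ∀ x ∈ T', ‖mult D.F α (sz k) x‖ ≤ 1 / 500 := by
  intro x hx
  have hs := sz_pos k
  have h1 : ‖D.F x‖ ≤ sz k / 1000 := by
    apply hFa x _ (hT' x hx).2.le
    rw [(hT' x hx).1, abs_zero]
    exact h.σ_pos
  rw [mult, norm_div, norm_mul, Complex.norm_real, Real.norm_of_nonneg hs.le, div_le_iff₀ hs]
  calc ‖D.F x‖ * ‖1 + (α : ℂ) * x‖ ≤ (sz k / 1000) * 2 := by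
        gcongr
        exact hk' x hx
    _ = 1 / 500 * sz k := by ring

include h hFa hT' hk' happ hδ hδρ hδA in
theorem core_diff (p : ℕ) (r : ℝ) :
    ‖∑ x ∈ T', τ' x * (mult D.F α (sz k) x ^ p * Complex.exp (-(ζ' x * r))) -
      ∑ x ∈ D.T, D.τ x * (mult D.F α (sz k) (D.ζ x) ^ p * Complex.exp (-(D.ζ x * r)))‖ ≤
      (1 / 2) ^ (k + 4) * Real.exp (D.ω r) := by
  have hM := mult_small h hFa hT' hk'
  have hρ := h.wt.rho_pos
  have h1 : ‖∑ x ∈ T', τ' x * (mult D.F α (sz k) x ^ p * Complex.exp (-(ζ' x * r))) -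
      ∑ x ∈ T', τ' x * (mult D.F α (sz k) x ^ p * Complex.exp (-(x * r)))‖ ≤
      (1 / 2) ^ (k + 5) * Real.exp (D.ω r) := by
    rw [← Finset.sum_sub_distrib]
    refine (norm_sum_le _ _).trans ?_
    have h2 : ∀ x ∈ T', ‖τ' x * (mult D.F α (sz k) x ^ p * Complex.exp (-(ζ' x * r))) -
        τ' x * (mult D.F α (sz k) x ^ p * Complex.exp (-(x * r)))‖ ≤
        ‖τ' x‖ * (δ * (2 / D.ρ) * Real.exp (D.ω r)) := by
      intro x hx
      have e : τ' x * (mult D.F α (sz k) x ^ p * Complex.exp (-(ζ' x * r))) -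
        τ' x * (mult D.F α (sz k) x ^ p * Complex.exp (-(x * r))) =
        τ' x * (mult D.F α (sz k) x ^ p *
          (Complex.exp (-(ζ' x * r)) - Complex.exp (-(x * r)))) := by ring
      rw [e, norm_mul, norm_mul, norm_pow]
      have h3 := exp_diff hρ hδρ (hT' x hx).1 (hδ x hx) r
      have h4 : ‖mult D.F α (sz k) x‖ ^ p ≤ 1 :=
        pow_le_one₀ (norm_nonneg _) ((hM x hx).trans (by norm_num))
      have h5 : Real.exp (D.ρ * |r|) ≤ Real.exp (D.ω r) := Real.exp_le_exp.mpr (h.wt.ge r)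
      have hδ0 : 0 ≤ δ := (norm_nonneg _).trans (hδ x hx)
      refine mul_le_mul_of_nonneg_left ?_ (norm_nonneg _)
      calc ‖mult D.F α (sz k) x‖ ^ p * ‖Complex.exp (-(ζ' x * r)) - Complex.exp (-(x * r))‖
          ≤ 1 * (δ * (2 / D.ρ) * Real.exp (D.ρ * |r|)) := by gcongr
        _ ≤ δ * (2 / D.ρ) * Real.exp (D.ω r) := by
            rw [one_mul]
            gcongr
    refine (Finset.sum_le_sum h2).trans ?_
    rw [← Finset.sum_mul]
    calc (∑ i ∈ T', ‖τ' i‖) * (δ * (2 / D.ρ) * Real.exp (D.ω r))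
        = ((∑ i ∈ T', ‖τ' i‖) * (δ * (2 / D.ρ))) * Real.exp (D.ω r) := by ring
      _ ≤ _ := by gcongr
  have h2 := happ p r
  rw [norm_sub_rev] at h2
  refine (norm_sub_le_norm_sub_add_norm_sub _
    (∑ x ∈ T', τ' x * (mult D.F α (sz k) x ^ p * Complex.exp (-(x * r)))) _).trans ?_
  have e : ((1 : ℝ) / 2) ^ (k + 4) * Real.exp (D.ω r) =
      (1 / 2) ^ (k + 5) * Real.exp (D.ω r) + (1 / 2) ^ (k + 5) * Real.exp (D.ω r) := by
    rw [pow_succ _ (k + 4)]
    ring
  rw [e]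
  exact add_le_add h1 h2

include h hk in
/-- old sum with multiplier -/
theorem old_bound (p : ℕ) (r : ℝ) :
    ‖∑ x ∈ D.T, D.τ x * (mult D.F α (sz k) (D.ζ x) ^ p * Complex.exp (-(D.ζ x * r)))‖ ≤
      (2 - (1 / 2) ^ k) * Real.exp (D.ω r) := by
  have hs := sz_pos k
  have hpow : ((1 : ℝ) / 2) ^ k ≤ 1 := pow_le_one₀ (by norm_num) (by norm_num)
  rcases Nat.eq_zero_or_pos p with rfl | hp
  · have := h.bd r
    simpa [Data.g] using this
  · have h1 : ∀ x ∈ D.T, ‖D.τ x * (mult D.F α (sz k) (D.ζ x) ^ p *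
        Complex.exp (-(D.ζ x * r)))‖ ≤
        (‖D.τ x‖ * ‖D.F (D.ζ x)‖) * (2 / sz k * Real.exp (D.ω r)) := by
      intro x hx
      have hn := h.node x hx
      have h2 : ‖mult D.F α (sz k) (D.ζ x)‖ ≤ ‖D.F (D.ζ x)‖ * (2 / sz k) := by
        rw [mult, norm_div, norm_mul, Complex.norm_real, Real.norm_of_nonneg hs.le,
          mul_div_assoc]
        gcongr
        exact hk x hx
      have h3 : ‖mult D.F α (sz k) (D.ζ x)‖ ≤ 1 := by
        refine h2.trans ?_
        have h4 := h.Fsmall _ hn.1 hn.2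
        calc ‖D.F (D.ζ x)‖ * (2 / sz k) ≤ (sz k / 4) * (2 / sz k) := by gcongr
          _ = 1 / 2 := by field_simp; norm_num
          _ ≤ 1 := by norm_num
      have h4 : ‖mult D.F α (sz k) (D.ζ x)‖ ^ p ≤ ‖D.F (D.ζ x)‖ * (2 / sz k) := by
        calc ‖mult D.F α (sz k) (D.ζ x)‖ ^ p ≤ ‖mult D.F α (sz k) (D.ζ x)‖ ^ 1 :=
              pow_le_pow_of_le_one (norm_nonneg _) h3 hp
          _ ≤ _ := by rw [pow_one]; exact h2
      have h5 := norm_exp_le_omega h.wt hn.1.le h.σ_le r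
      rw [norm_mul, norm_mul, norm_pow]
      calc ‖D.τ x‖ * (‖mult D.F α (sz k) (D.ζ x)‖ ^ p * ‖Complex.exp (-(D.ζ x * r))‖)
          ≤ ‖D.τ x‖ * ((‖D.F (D.ζ x)‖ * (2 / sz k)) * Real.exp (D.ω r)) := by gcongr
        _ = _ := by ring
    refine (norm_sum_le _ _).trans ((Finset.sum_le_sum h1).trans ?_)
    rw [← Finset.sum_mul]
    have h6 := h.ann
    calc (∑ x ∈ D.T, ‖D.τ x‖ * ‖D.F (D.ζ x)‖) * (2 / sz k * Real.exp (D.ω r))
        ≤ (sz k / 2) * (2 / sz k * Real.exp (D.ω r)) := by gcongr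
      _ = 1 * Real.exp (D.ω r) := by field_simp
      _ ≤ (2 - (1 / 2) ^ k) * Real.exp (D.ω r) := by
          gcongr
          linarith

include h hFa hT' hk' hc1 hN hζ in
theorem core_node : ∀ x ∈ T', |(ζ' x).re| < (c - Real.log 32) / N := by
  intro x hx
  have hN0 : 0 < N := by
    have : (0 : ℝ) ≤ k := Nat.cast_nonneg k
    linarith
  have hM := mult_small h hFa hT' hk' x hx
  have hA0 : 0 ≤ ∑ y ∈ T', ‖τ' y‖ := Finset.sum_nonneg fun y _ => norm_nonneg _
  have hEc := Real.exp_pos c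
  have h1 : Real.exp (-(N * (ζ' x).re)) = Real.exp c * ‖mult D.F α (sz k) x‖ := by
    have h2 := congrArg norm (hζ x hx)
    rw [Complex.norm_exp, norm_mul, norm_neg, Complex.norm_real,
      Real.norm_of_nonneg hEc.le] at h2
    rw [← h2]
    congr 1
    simp
  have e32 : Real.exp (Real.log 32) = 32 := Real.exp_log (by norm_num)
  have h3 : -(N * (ζ' x).re) < c - Real.log 32 := by
    rw [← Real.exp_lt_exp, h1, Real.exp_sub, e32, div_eq_mul_inv]
    apply mul_lt_mul_of_pos_left _ hEc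
    refine lt_of_le_of_lt hM ?_
    norm_num
  have h4 : -(c - Real.log 32) < -(N * (ζ' x).re) := by
    rw [← Real.exp_lt_exp, h1]
    have e : Real.exp (-(c - Real.log 32)) = 32 / Real.exp c := by
      rw [neg_sub, Real.exp_sub, e32]
    rw [e, div_lt_iff₀ hEc]
    have h5 := hc1 x hx
    have h6 : Real.exp (2 * c) = Real.exp c * Real.exp c := by
      rw [← Real.exp_add]; congr 1; ring
    rw [h6] at h5
    linarith
  rw [lt_div_iff₀ hN0]
  have h5 : |(ζ' x).re| * N = |N * (ζ' x).re| := by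
    rw [abs_mul, abs_of_pos hN0, mul_comm]
  rw [h5, abs_lt]
  constructor <;> linarith

include h hFa hT' hk' hk happ hc1 hc2 hN hζ hδ hδρ hδA hσ in
theorem core_bd (t : ℝ) : ‖(nextD k D a α T' τ' ζ' c N).g t‖ ≤
    (2 - (1 / 2) ^ (k + 1)) * Real.exp (wstep D.ω N c t) := by
  have hs := sz_pos k
  have hN0 : 0 < N := by
    have : (0 : ℝ) ≤ k := Nat.cast_nonneg k
    linarith
  have hc0 : 0 < c := log32_pos.trans hc2
  have hpow : ((1 : ℝ) / 2) ^ k ≤ 1 := pow_le_one₀ (by norm_num) (by norm_num)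
  have hpow0 : (0 : ℝ) < (1 / 2) ^ k := by positivity
  have hM := mult_small h hFa hT' hk'
  have e1 : ((1 : ℝ) / 2) ^ (k + 1) = (1 / 2) ^ k / 2 := by rw [pow_succ]; ring
  have e4 : ((1 : ℝ) / 2) ^ (k + 4) = (1 / 2) ^ k / 16 := by rw [pow_add]; norm_num; ring
  have hC1 : 1 ≤ (2 - ((1 : ℝ) / 2) ^ (k + 1)) := by rw [e1]; linarith
  apply le_exp_wstep (by linarith) (norm_nonneg _)
  intro m
  set r : ℝ := t - m * N with hr
  have hg : (nextD k D a α T' τ' ζ' c N).g t =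
      ∑ x ∈ T', τ' x * Complex.exp (-(ζ' x * t)) := rfl
  obtain ⟨p, hp | hp⟩ := m.eq_nat_or_neg
  · -- nonnegative multiples
    have ht : t = p * N + r := by rw [hr, hp]; push_cast; ring
    have h1 : ∀ x ∈ T', τ' x * Complex.exp (-(ζ' x * t)) =
        (-(Real.exp c : ℝ) : ℂ) ^ p *
          (τ' x * (mult D.F α (sz k) x ^ p * Complex.exp (-(ζ' x * r)))) := by
      intro x hx
      have e : -(ζ' x * (t : ℂ)) = p * (-(N * ζ' x)) + -(ζ' x * r) := by
        rw [ht]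
        push_cast
        ring
      rw [e, Complex.exp_add, Complex.exp_nat_mul, hζ x hx, mul_pow]
      ring
    rw [hg, Finset.sum_congr rfl h1, ← Finset.mul_sum, norm_mul, norm_pow, norm_neg,
      Complex.norm_real, Real.norm_of_nonneg (Real.exp_pos c).le]
    have h2 := core_diff h hFa hT' hk' happ hδ hδρ hδA p r
    have h3 := old_bound h hk p r
    have h4 : ‖∑ x ∈ T', τ' x * (mult D.F α (sz k) x ^ p * Complex.exp (-(ζ' x * r)))‖ ≤
        (2 - (1 / 2) ^ (k + 1)) * Real.exp (D.ω r) := by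
      have h5 := norm_le_norm_sub_add
        (∑ x ∈ T', τ' x * (mult D.F α (sz k) x ^ p * Complex.exp (-(ζ' x * r))))
        (∑ x ∈ D.T, D.τ x * (mult D.F α (sz k) (D.ζ x) ^ p * Complex.exp (-(D.ζ x * r))))
      refine h5.trans ((add_le_add h2 h3).trans ?_)
      rw [← add_mul]
      gcongr
      rw [e1, e4]
      linarith
    have h6 : |(m : ℝ)| = p := by rw [hp]; simp
    rw [h6, Real.exp_add, mul_comm c, Real.exp_nat_mul]
    calc Real.exp c ^ p * ‖∑ x ∈ T', τ' x * (mult D.F α (sz k) x ^ p *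
          Complex.exp (-(ζ' x * r)))‖
        ≤ Real.exp c ^ p * ((2 - (1 / 2) ^ (k + 1)) * Real.exp (D.ω r)) := by gcongr
      _ = _ := by ring
  · rcases Nat.eq_zero_or_pos p with hp0 | hp0
    · -- `m = 0`
      have hm0 : m = 0 := by rw [hp, hp0]; simp
      have ht : r = t := by rw [hr, hm0]; simp
      have h2 := core_diff h hFa hT' hk' happ hδ hδρ hδA 0 r
      have h3 := old_bound h hk 0 r
      have h5 := norm_le_norm_sub_add
        (∑ x ∈ T', τ' x * (mult D.F α (sz k) x ^ 0 * Complex.exp (-(ζ' x * r))))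
        (∑ x ∈ D.T, D.τ x * (mult D.F α (sz k) (D.ζ x) ^ 0 * Complex.exp (-(D.ζ x * r))))
      have h6 := h5.trans (add_le_add h2 h3)
      have e0 : ∑ x ∈ T', τ' x * (mult D.F α (sz k) x ^ 0 * Complex.exp (-(ζ' x * r))) =
          (nextD k D a α T' τ' ζ' c N).g t := by
        rw [hg, ht]
        simp
      rw [e0] at h6
      refine h6.trans ?_
      rw [← add_mul, hm0]
      simp only [Int.cast_zero, abs_zero, mul_zero, zero_add]
      gcongr
      rw [e1, e4]
      linarith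
    · -- negative multiples
      have hmp : (m : ℝ) = -(p : ℝ) := by rw [hp]; simp
      have ht : t = -(p * N) + r := by rw [hr, hmp]; ring
      set A : ℝ := ∑ y ∈ T', ‖τ' y‖ with hA
      have hA0 : 0 ≤ A := Finset.sum_nonneg fun y _ => norm_nonneg _
      have hσρ : (c - Real.log 32) / N ≤ D.ρ := hσ.trans h.σ_le
      have h1 : ∀ x ∈ T', ‖τ' x * Complex.exp (-(ζ' x * t))‖ ≤
          ‖τ' x‖ * (Real.exp c ^ p / (A + 33) * Real.exp (D.ω r)) := by
        intro x hx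
        have e : -(ζ' x * (t : ℂ)) = -(p * (-(N * ζ' x))) + -(ζ' x * r) := by
          rw [ht]
          push_cast
          ring
        have h2 : |(ζ' x).re| ≤ D.ρ :=
          (core_node h hFa hT' hk' hc1 hN hζ x hx).le.trans hσρ
        have h3 := norm_exp_le_omega h.wt h2 le_rfl r
        have h4 : ‖Complex.exp (-(p * (-(N * ζ' x))))‖ ≤ Real.exp c ^ p / (A + 33) := by
          rw [Complex.exp_neg, Complex.exp_nat_mul, hζ x hx, norm_inv, norm_pow, norm_mul,
            norm_neg, Complex.norm_real, Real.norm_of_nonneg (Real.exp_pos c).le]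
          have h5 := hc1 x hx
          have h6 : Real.exp (2 * c) = Real.exp c * Real.exp c := by
            rw [← Real.exp_add]; congr 1; ring
          rw [h6] at h5
          have hEc := Real.exp_pos c
          have h7 : (A + 33) / Real.exp c ≤ Real.exp c * ‖mult D.F α (sz k) x‖ := by
            rw [div_le_iff₀ hEc]
            linarith
          have h8 : ((A + 33) / Real.exp c) ^ p ≤ (Real.exp c * ‖mult D.F α (sz k) x‖) ^ p := by
            gcongr
          have h9 : (A + 33) / Real.exp c ^ p ≤ ((A + 33) / Real.exp c) ^ p := by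
            rw [div_pow]
            gcongr
            calc A + 33 = (A + 33) ^ 1 := (pow_one _).symm
              _ ≤ (A + 33) ^ p := pow_le_pow_right₀ (by linarith) hp0
          have h10 : (0 : ℝ) < (A + 33) / Real.exp c ^ p := by positivity
          calc ((Real.exp c * ‖mult D.F α (sz k) x‖) ^ p)⁻¹
              ≤ ((A + 33) / Real.exp c ^ p)⁻¹ := inv_anti₀ h10 (h9.trans h8)
            _ = Real.exp c ^ p / (A + 33) := by rw [inv_div]
        rw [norm_mul, e, Complex.exp_add, norm_mul]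
        gcongr
      rw [hg]
      refine (norm_sum_le _ _).trans ((Finset.sum_le_sum h1).trans ?_)
      rw [← Finset.sum_mul, ← hA]
      have h6 : |(m : ℝ)| = p := by rw [hmp, abs_neg]; simp
      rw [h6, Real.exp_add, mul_comm c, Real.exp_nat_mul]
      have h7 : A / (A + 33) ≤ 1 := by
        rw [div_le_one (by linarith)]
        linarith
      calc A * (Real.exp c ^ p / (A + 33) * Real.exp (D.ω r))
          = (A / (A + 33)) * (Real.exp c ^ p * Real.exp (D.ω r)) := by ring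
        _ ≤ (2 - (1 / 2) ^ (k + 1)) * (Real.exp c ^ p * Real.exp (D.ω r)) := by
            gcongr
            linarith

include h hFa hT' hk' happ hδ hδρ hδA in
theorem core_close (r : ℝ) : ‖(nextD k D a α T' τ' ζ' c N).g r - D.g r‖ ≤
    (1 / 2) ^ (k + 4) * Real.exp (D.ω r) := by
  have h2 := core_diff h hFa hT' hk' happ hδ hδρ hδA 0 r
  have e1 : ∑ x ∈ T', τ' x * (mult D.F α (sz k) x ^ 0 * Complex.exp (-(ζ' x * r))) =
      (nextD k D a α T' τ' ζ' c N).g r := by
    simp [Data.g, nextD]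
  have e2 : ∑ x ∈ D.T, D.τ x * (mult D.F α (sz k) (D.ζ x) ^ 0 * Complex.exp (-(D.ζ x * r))) =
      D.g r := by
    simp [Data.g]
  rwa [e1, e2] at h2

/-- size of the new term in a thin strip -/
theorem new_term {k : ℕ} {α c N : ℝ} (hN0 : 0 < N) {z : ℂ}
    (hz : |z.re| < (c - Real.log 32) / N) :
    ‖((sz k * Real.exp (-c) : ℝ) : ℂ) * Complex.exp (-(N * z)) / (1 + α * z)‖ ≤
      sz k / 32 / ‖1 + (α : ℂ) * z‖ := by
  have hs := sz_pos k
  have e32 : Real.exp (Real.log 32) = 32 := Real.exp_log (by norm_num)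
  have h1 : ‖Complex.exp (-(N * z))‖ ≤ Real.exp c / 32 := by
    rw [Complex.norm_exp]
    have h2 : (-((N : ℂ) * z)).re = -(N * z.re) := by simp
    rw [h2]
    have h3 : -(N * z.re) ≤ c - Real.log 32 := by
      rw [lt_div_iff₀ hN0] at hz
      have h4 := neg_abs_le z.re
      nlinarith
    calc Real.exp (-(N * z.re)) ≤ Real.exp (c - Real.log 32) := Real.exp_le_exp.mpr h3
      _ = Real.exp c / 32 := by rw [Real.exp_sub, e32]
  rw [norm_div, norm_mul, Complex.norm_real, Real.norm_of_nonneg (by positivity)]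
  gcongr
  calc sz k * Real.exp (-c) * ‖Complex.exp (-(N * z))‖
      ≤ sz k * Real.exp (-c) * (Real.exp c / 32) := by gcongr
    _ = sz k / 32 * (Real.exp (-c) * Real.exp c) := by ring
    _ = sz k / 32 := by rw [← Real.exp_add]; simp

include h hXa hα0 hα1 hFa hT' hk' hk happ hc1 hc2 hc3 hN hζ hδ hδρ hδA hσ him hann in
theorem core_inv : Inv (k + 1) (nextD k D a α T' τ' ζ' c N) := by
  have hs := sz_pos k
  have hN0 : 0 < N := by
    have : (0 : ℝ) ≤ k := Nat.cast_nonneg k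
    linarith
  have hc0 : 0 < c := log32_pos.trans hc2
  have hρ2 := h.wt.rho_le
  have hσ2 : (c - Real.log 32) / N ≤ 1 / 2 := (hσ.trans h.σ_le).trans hρ2
  have hnode := core_node h hFa hT' hk' hc1 hN hζ
  have hbs : sz k * Real.exp (-c) * Real.exp c = sz k := by
    rw [mul_assoc, ← Real.exp_add]; simp
  refine ⟨h.wt.step hN0 hc0, ?_, ?_, ?_, ?_, ?_, ?_, ?_, ?_, ?_, ?_⟩
  · show 0 < (c - Real.log 32) / N
    exact div_pos (by linarith) hN0
  · show (c - Real.log 32) / N ≤ min D.ρ (c / N)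
    refine le_min (hσ.trans h.σ_le) ?_
    gcongr
    linarith [log32_pos]
  · show 0 ≤ a
    exact h.X_nonneg.trans hXa.le
  · intro x hx
    exact ⟨hnode x hx, him x hx⟩
  · show DifferentiableOn ℂ (fun z => D.F z + (sz k * Real.exp (-c) : ℝ) *
      Complex.exp (-(N * z)) / (1 + α * z)) {z | -1 < z.re}
    apply h.Fd.add
    apply DifferentiableOn.div
    · fun_prop
    · fun_prop
    · intro z hz
      exact kern_ne hα0 hα1 hz
  · intro z hz1 hz2
    have hz1' : |z.re| < (c - Real.log 32) / N := hz1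
    have h1 : ‖D.F z‖ ≤ sz k / 1000 := hFa z (lt_of_lt_of_le hz1' hσ) (le_of_lt hz2)
    have h2 := new_term (k := k) (α := α) hN0 hz1'
    have h3 : 1 / 2 ≤ ‖1 + (α : ℂ) * z‖ := kern_half hα0 hα1 (hz1'.le.trans hσ2)
    have h4 : sz k / 32 / ‖1 + (α : ℂ) * z‖ ≤ sz k / 16 := by
      rw [div_le_iff₀ (by linarith)]
      nlinarith
    show ‖D.F z + (sz k * Real.exp (-c) : ℝ) * Complex.exp (-(N * z)) / (1 + α * z)‖ ≤ _
    refine (norm_add_le _ _).trans ((add_le_add h1 (h2.trans h4)).trans ?_)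
    rw [sz_succ]
    linarith
  · intro ε hε
    obtain ⟨Y, hY⟩ := h.Flim (ε / 2) (by linarith)
    refine ⟨max Y (sz k / (α * ε)), ?_⟩
    intro z hz1 hz2
    have hz1' : |z.re| < (c - Real.log 32) / N := hz1
    have hzY : Y < z.im := lt_of_le_of_lt (le_max_left _ _) hz2
    have hzY2 : sz k / (α * ε) < z.im := lt_of_le_of_lt (le_max_right _ _) hz2
    have h1 := hY z (lt_of_lt_of_le hz1' hσ) hzY
    have h2 := new_term (k := k) (α := α) hN0 hz1'
    have h3 := kern_im hα0 z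
    have h5 : sz k < ε * ‖1 + (α : ℂ) * z‖ := by
      rw [div_lt_iff₀ (by positivity)] at hzY2
      have := mul_le_mul_of_nonneg_left h3 hε.le
      nlinarith
    have h6 : 0 < ‖1 + (α : ℂ) * z‖ := by
      have : 1 / 2 ≤ ‖1 + (α : ℂ) * z‖ := kern_half hα0 hα1 (hz1'.le.trans hσ2)
      linarith
    have h4 : sz k / 32 / ‖1 + (α : ℂ) * z‖ ≤ ε / 2 := by
      rw [div_le_iff₀ h6]
      nlinarith
    show ‖D.F z + (sz k * Real.exp (-c) : ℝ) * Complex.exp (-(N * z)) / (1 + α * z)‖ ≤ _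
    refine (norm_add_le _ _).trans ((add_le_add h1 (h2.trans h4)).trans ?_)
    linarith
  · intro z hz
    have h1 := h.Flow z hz
    have h2 := kern_lower hα0 hα1 (z := z) (by linarith)
    have h1z : 0 < ‖1 + z‖ := by
      rw [norm_pos_iff]
      intro h0
      have := congrArg Complex.re h0
      simp only [Complex.add_re, Complex.one_re, Complex.zero_re] at this
      linarith
    have h3 : ‖((sz k * Real.exp (-c) : ℝ) : ℂ) * Complex.exp (-(N * z)) / (1 + α * z)‖ ≤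
        (1 / 2) ^ (k + 2) / ‖1 + z‖ := by
      have h4 : ‖Complex.exp (-(N * z))‖ ≤ 1 := by
        rw [Complex.norm_exp]
        have : (-((N : ℂ) * z)).re = -(N * z.re) := by simp
        rw [this]
        apply Real.exp_le_one_iff.mpr
        have := mul_nonneg hN0.le hz
        linarith
      rw [norm_div, norm_mul, Complex.norm_real, Real.norm_of_nonneg (by positivity)]
      calc sz k * Real.exp (-c) * ‖Complex.exp (-(N * z))‖ / ‖1 + (α : ℂ) * z‖
          ≤ sz k * Real.exp (-c) * 1 / (α * ‖1 + z‖) := by gcongr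
        _ = (sz k * Real.exp (-c) / α) / ‖1 + z‖ := by field_simp
        _ ≤ _ := by gcongr
    show _ ≤ ‖D.F z + (sz k * Real.exp (-c) : ℝ) * Complex.exp (-(N * z)) / (1 + α * z)‖
    have h5 := norm_sub_le_norm_add (D.F z)
      (((sz k * Real.exp (-c) : ℝ) : ℂ) * Complex.exp (-(N * z)) / (1 + α * z))
    have e1 : ((1 : ℝ) / 2) ^ (k + 1 + 1) = (1 / 2) ^ (k + 2) := rfl
    have e2 : ((1 : ℝ) / 2) ^ (k + 1) = 2 * (1 / 2) ^ (k + 2) := by
      rw [pow_succ _ (k + 1)]; ring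
    rw [e2] at h1
    rw [e1]
    have e3 : (1 / 2 + 2 * (1 / 2) ^ (k + 2)) / ‖1 + z‖ =
        (1 / 2 + (1 / 2) ^ (k + 2)) / ‖1 + z‖ + (1 / 2) ^ (k + 2) / ‖1 + z‖ := by ring
    rw [e3] at h1
    linarith
  · show ∑ x ∈ T', ‖τ' x‖ * ‖D.F (ζ' x) + (sz k * Real.exp (-c) : ℝ) *
      Complex.exp (-(N * ζ' x)) / (1 + α * ζ' x)‖ ≤ _
    refine le_trans (le_of_eq ?_) hann
    apply Finset.sum_congr rfl
    intro x hx
    rw [hζ x hx]
    have e : ((sz k * Real.exp (-c) : ℝ) : ℂ) * (-(Real.exp c : ℝ) * mult D.F α (sz k) x) =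
        -(sz k * mult D.F α (sz k) x) := by
      have : ((sz k * Real.exp (-c) : ℝ) : ℂ) * ((Real.exp c : ℝ) : ℂ) = (sz k : ℂ) := by
        rw [← Complex.ofReal_mul, hbs]
      calc ((sz k * Real.exp (-c) : ℝ) : ℂ) * (-(Real.exp c : ℝ) * mult D.F α (sz k) x)
          = -((((sz k * Real.exp (-c) : ℝ) : ℂ) * ((Real.exp c : ℝ) : ℂ)) *
            mult D.F α (sz k) x) := by ring
        _ = _ := by rw [this]
    rw [e, neg_div, ← sub_eq_add_neg]
  · exact core_bd h hFa hT' hk' hk happ hc1 hc2 hN hζ hδ hδρ hδA hσ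

end core

/-- candidate frequencies: `exp (-N ζ) = l` and `ζ → i y` -/
noncomputable def zN (l : ℂ) (y N : ℝ) : ℂ :=
  (-Complex.log l + 2 * Real.pi * ⌊N * y / (2 * Real.pi)⌋ * Complex.I) / N

theorem zN_exp {l : ℂ} (hl : l ≠ 0) (y : ℝ) {N : ℝ} (hN : N ≠ 0) :
    Complex.exp (-(N * zN l y N)) = l := by
  have hN' : (N : ℂ) ≠ 0 := Complex.ofReal_ne_zero.mpr hN
  have e : -((N : ℂ) * zN l y N) =
      Complex.log l + ((-⌊N * y / (2 * Real.pi)⌋ : ℤ) : ℂ) * (2 * Real.pi * Complex.I) := by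
    rw [zN]
    field_simp
    push_cast
    ring
  rw [e, Complex.exp_add, Complex.exp_log hl, Complex.exp_int_mul_two_pi_mul_I, mul_one]

theorem zN_tendsto (l : ℂ) (y : ℝ) :
    Tendsto (fun N : ℝ => zN l y N) atTop (𝓝 (y * Complex.I)) := by
  rw [tendsto_iff_norm_sub_tendsto_zero]
  have hpi := Real.pi_pos
  have hlim : Tendsto (fun N : ℝ => (‖Complex.log l‖ + 2 * Real.pi) / N) atTop (𝓝 0) :=
    tendsto_const_nhds.div_atTop tendsto_id
  refine squeeze_zero' (Eventually.of_forall fun N => norm_nonneg _) ?_ hlim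
  filter_upwards [eventually_gt_atTop (0 : ℝ)] with N hN
  have hN' : (N : ℂ) ≠ 0 := Complex.ofReal_ne_zero.mpr hN.ne'
  have e : zN l y N - y * Complex.I = (-Complex.log l +
      ((2 * Real.pi * ⌊N * y / (2 * Real.pi)⌋ - N * y : ℝ) : ℂ) * Complex.I) / N := by
    rw [zN]
    field_simp
    push_cast
    ring
  rw [e, norm_div, Complex.norm_real, Real.norm_of_nonneg hN.le]
  gcongr
  refine (norm_add_le _ _).trans ?_
  rw [norm_neg, norm_mul, Complex.norm_I, mul_one, Complex.norm_real, Real.norm_eq_abs]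
  gcongr
  have h1 := Int.floor_le (N * y / (2 * Real.pi))
  have h2 := Int.lt_floor_add_one (N * y / (2 * Real.pi))
  rw [le_div_iff₀ (by positivity)] at h1
  rw [div_lt_iff₀ (by positivity)] at h2
  rw [abs_le]
  constructor <;> nlinarith

/-- one step of the construction -/
theorem exists_step {k : ℕ} {D : Data} (h : Inv k D) :
    ∃ (p : Par) (D' : Data), Good k D p D' ∧ Inv (k + 1) D' := by
  obtain ⟨a, α, T', τ', hXa, hα0, hα1, hFa, hT', hk', hk, happ⟩ := exists_window h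
  have hs := sz_pos k
  have hρ := h.wt.rho_pos
  set A : ℝ := ∑ y ∈ T', ‖τ' y‖ with hA
  have hA0 : 0 ≤ A := Finset.sum_nonneg fun y _ => norm_nonneg _
  have hM0 : ∀ x ∈ T', mult D.F α (sz k) x ≠ 0 := by
    intro x hx
    have hx0 := (hT' x hx).1
    rw [mult]
    refine div_ne_zero (mul_ne_zero ?_ ?_) (Complex.ofReal_ne_zero.mpr hs.ne')
    · have h1 := h.Flow x (by rw [hx0])
      have h2 : 0 < (1 / 2 + (1 / 2 : ℝ) ^ (k + 1)) / ‖1 + x‖ := by
        apply div_pos (by positivity)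
        rw [norm_pos_iff]
        intro h0
        have := congrArg Complex.re h0
        simp only [Complex.add_re, Complex.one_re, Complex.zero_re, hx0] at this
        norm_num at this
      exact norm_pos_iff.mp (lt_of_lt_of_le h2 h1)
    · apply kern_ne hα0 hα1
      rw [hx0]
      norm_num
  -- choice of `c`
  obtain ⟨c, hc1, hc2, hc3⟩ : ∃ c : ℝ,
      (∀ x ∈ T', A + 33 ≤ Real.exp (2 * c) * ‖mult D.F α (sz k) x‖) ∧ Real.log 32 < c ∧
      sz k * Real.exp (-c) / α ≤ (1 / 2) ^ (k + 2) := by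
    have h1 : ∀ᶠ c : ℝ in atTop, ∀ x ∈ T',
        A + 33 ≤ Real.exp (2 * c) * ‖mult D.F α (sz k) x‖ := by
      rw [Filter.eventually_all_finset]
      intro x hx
      have hp : 0 < ‖mult D.F α (sz k) x‖ := norm_pos_iff.mpr (hM0 x hx)
      have ht : Tendsto (fun c : ℝ => Real.exp (2 * c) * ‖mult D.F α (sz k) x‖) atTop atTop :=
        (Real.tendsto_exp_atTop.comp (tendsto_id.const_mul_atTop (by norm_num : (0 : ℝ) < 2))
          ).atTop_mul_const hp
      exact ht.eventually_ge_atTop _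
    have h2 : ∀ᶠ c : ℝ in atTop, Real.log 32 < c := eventually_gt_atTop _
    have h3 : ∀ᶠ c : ℝ in atTop, sz k * Real.exp (-c) / α ≤ (1 / 2) ^ (k + 2) := by
      have ht : Tendsto (fun c : ℝ => sz k * Real.exp (-c) / α) atTop (𝓝 (sz k * 0 / α)) :=
        ((Real.tendsto_exp_atBot.comp tendsto_neg_atTop_atBot).const_mul _).div_const _
      rw [mul_zero, zero_div] at ht
      exact ht.eventually_le_const (by positivity)
    exact (h1.and (h2.and h3)).exists
  have hc0 : 0 < c := log32_pos.trans hc2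
  set l : ℂ → ℂ := fun x => -(Real.exp c : ℝ) * mult D.F α (sz k) x with hl
  have hl0 : ∀ x ∈ T', l x ≠ 0 := by
    intro x hx
    exact mul_ne_zero (neg_ne_zero.mpr (Complex.ofReal_ne_zero.mpr (Real.exp_pos c).ne'))
      (hM0 x hx)
  set δ : ℝ := min (D.ρ / 2) ((1 / 2) ^ (k + 5) * D.ρ / (2 * (A + 1))) with hδdef
  have hδ0 : 0 < δ := by
    apply lt_min <;> positivity
  have hδρ : δ ≤ D.ρ / 2 := min_le_left _ _
  have hδA : A * (δ * (2 / D.ρ)) ≤ (1 / 2) ^ (k + 5) := by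
    have h1 : δ ≤ (1 / 2) ^ (k + 5) * D.ρ / (2 * (A + 1)) := min_le_right _ _
    calc A * (δ * (2 / D.ρ)) ≤ (A + 1) * ((1 / 2) ^ (k + 5) * D.ρ / (2 * (A + 1)) * (2 / D.ρ)) := by
          gcongr
          linarith
      _ = (1 / 2) ^ (k + 5) := by field_simp
  -- convergence of the frequencies
  have hx_eq : ∀ x ∈ T', ((x.im : ℝ) : ℂ) * Complex.I = x := by
    intro x hx
    apply Complex.ext
    · simp [(hT' x hx).1]
    · simp
  have hzt : ∀ x ∈ T', Tendsto (fun N : ℝ => zN (l x) x.im N) atTop (𝓝 x) := by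
    intro x hx
    have := zN_tendsto (l x) x.im
    rwa [hx_eq x hx] at this
  obtain ⟨N, hN, hcN, hσ, hδN, him, hann⟩ : ∃ N : ℝ, (k : ℝ) + 1 ≤ N ∧
      c / N ≤ 1 / ((k : ℝ) + 1) ∧ (c - Real.log 32) / N ≤ D.σ ∧
      (∀ x ∈ T', ‖zN (l x) x.im N - x‖ ≤ δ) ∧ (∀ x ∈ T', a < (zN (l x) x.im N).im) ∧
      ∑ x ∈ T', ‖τ' x‖ * ‖D.F (zN (l x) x.im N) -
        sz k * mult D.F α (sz k) x / (1 + α * zN (l x) x.im N)‖ ≤ sz (k + 1) / 2 := by
    have h1 : ∀ᶠ N : ℝ in atTop, (k : ℝ) + 1 ≤ N := eventually_ge_atTop _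
    have h2 : ∀ᶠ N : ℝ in atTop, c / N ≤ 1 / ((k : ℝ) + 1) :=
      (tendsto_const_nhds.div_atTop tendsto_id : Tendsto (fun N : ℝ => c / N) atTop (𝓝 0)
        ).eventually_le_const (by positivity)
    have h3 : ∀ᶠ N : ℝ in atTop, (c - Real.log 32) / N ≤ D.σ :=
      (tendsto_const_nhds.div_atTop tendsto_id :
        Tendsto (fun N : ℝ => (c - Real.log 32) / N) atTop (𝓝 0)
        ).eventually_le_const h.σ_pos
    have h4 : ∀ᶠ N : ℝ in atTop, ∀ x ∈ T', ‖zN (l x) x.im N - x‖ ≤ δ := by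
      rw [Filter.eventually_all_finset]
      intro x hx
      have := tendsto_iff_norm_sub_tendsto_zero.mp (hzt x hx)
      exact this.eventually_le_const hδ0
    have h5 : ∀ᶠ N : ℝ in atTop, ∀ x ∈ T', a < (zN (l x) x.im N).im := by
      rw [Filter.eventually_all_finset]
      intro x hx
      have := (Complex.continuous_im.tendsto x).comp (hzt x hx)
      exact this.eventually_const_lt (hT' x hx).2
    have h6 : ∀ᶠ N : ℝ in atTop, ∑ x ∈ T', ‖τ' x‖ * ‖D.F (zN (l x) x.im N) -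
        sz k * mult D.F α (sz k) x / (1 + α * zN (l x) x.im N)‖ ≤ sz (k + 1) / 2 := by
      have ht : Tendsto (fun N : ℝ => ∑ x ∈ T', ‖τ' x‖ * ‖D.F (zN (l x) x.im N) -
          sz k * mult D.F α (sz k) x / (1 + α * zN (l x) x.im N)‖) atTop
          (𝓝 (∑ x ∈ T', (0 : ℝ))) := by
        apply tendsto_finsetSum
        intro x hx
        have hx0 := (hT' x hx).1
        have hre : -1 < x.re := by rw [hx0]; norm_num
        have hcont : ContinuousAt D.F x := by
          have hnhds : {z : ℂ | -1 < z.re} ∈ 𝓝 x :=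
            (isOpen_lt continuous_const Complex.continuous_re).mem_nhds hre
          exact (h.Fd.differentiableAt hnhds).continuousAt
        have hne := kern_ne hα0 hα1 hre
        have t1 : Tendsto (fun N : ℝ => D.F (zN (l x) x.im N)) atTop (𝓝 (D.F x)) :=
          hcont.tendsto.comp (hzt x hx)
        have t2 : Tendsto (fun N : ℝ => 1 + (α : ℂ) * zN (l x) x.im N) atTop
            (𝓝 (1 + (α : ℂ) * x)) := ((hzt x hx).const_mul _).const_add _
        have t3 := (t1.sub ((tendsto_const_nhds (x := (sz k : ℂ) * mult D.F α (sz k) x)).div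
          t2 hne)).norm.const_mul ‖τ' x‖
        have e : ‖τ' x‖ * ‖D.F x - (sz k : ℂ) * mult D.F α (sz k) x / (1 + (α : ℂ) * x)‖ = 0 := by
          have hs' : (sz k : ℂ) ≠ 0 := Complex.ofReal_ne_zero.mpr hs.ne'
          have : D.F x - (sz k : ℂ) * mult D.F α (sz k) x / (1 + (α : ℂ) * x) = 0 := by
            rw [mult]
            field_simp
            ring
          rw [this, norm_zero, mul_zero]
        rw [e] at t3
        exact t3
      rw [Finset.sum_const_zero] at ht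
      have := sz_pos (k + 1)
      exact ht.eventually_le_const (by positivity)
    exact (h1.and (h2.and (h3.and (h4.and (h5.and h6))))).exists
  have hN0 : 0 < N := by
    have : (0 : ℝ) ≤ k := Nat.cast_nonneg k
    linarith
  have hζ : ∀ x ∈ T', Complex.exp (-(N * zN (l x) x.im N)) =
      -(Real.exp c : ℝ) * mult D.F α (sz k) x := fun x hx => zN_exp (hl0 x hx) _ hN0.ne'
  refine ⟨⟨N, sz k * Real.exp (-c), c, α⟩,
    nextD k D a α T' τ' (fun x => zN (l x) x.im N) c N, ?_, ?_⟩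
  · refine ⟨hN, by positivity, hc0, hα0, hα1, ?_, hc3, hcN, rfl, ?_, ?_⟩
    · show sz k * Real.exp (-c) * Real.exp c = sz k
      rw [mul_assoc, ← Real.exp_add]
      simp
    · intro z
      rfl
    · exact core_close h hFa hT' hk' happ hδN hδρ hδA
  · exact core_inv h hXa hα0 hα1 hFa hT' hk' hk happ hc1 hc2 hc3 hN hζ hδN hδρ hδA hσ him hann

end Pool.Agent.Helper99.RT
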